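import Pool.Agent.X22.CM

/-! Ordinary reduction of `Y ^ 2 = X ^ (2 g + 1) + h (X) + m` modulo `p`, as a function of `m`. -/

set_option autoImplicit false

namespace Pool.Agent.X35.OR
open Finset Polynomial
open Pool.Agent.X22.CM

/-- the polynomial modulo `p` -/
noncomputable def poly (p g : ℕ) (h : ℤ[X]) (m : ℤ) : (ZMod p)[X] :=
  X ^ (2 * g + 1) + h.map (Int.castRingHom (ZMod p)) + C (m : ZMod p)

/-- the Cartier–Manin matrix -/
noncomputable def cartierManin (p g : ℕ) (f : (ZMod p)[X]) : Matrix (Fin g) (Fin g) (ZMod p) :=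
  fun i j => (f ^ (p / 2)).coeff (((i : ℕ) + 1) * p - ((j : ℕ) + 1))

/-- good ordinary reduction -/
def Ord (p g : ℕ) (h : ℤ[X]) (m : ℤ) : Prop :=
  (poly p g h m).Separable ∧ (cartierManin p g (poly p g h m)).det ≠ 0

lemma ord_mod (p g : ℕ) (h : ℤ[X]) (m m' : ℤ) (hm : m ≡ m' [ZMOD (p : ℕ)]) : Ord p g h m ↔ Ord p g h m' := by
  unfold Ord poly
  rw [(ZMod.intCast_eq_intCast_iff m m' p).2 hm]

section
variable {p : ℕ} [hf : Fact p.Prime]

lemma range_inj (S : Finset ℕ) (hS : S ⊆ range p) : Set.InjOn (fun m : ℕ => (m : ZMod p)) S := by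
  intro m hm m' hm' h
  have h1 := mem_range.1 (hS hm)
  have h2 := mem_range.1 (hS hm')
  have h5 := congrArg ZMod.val h
  simp only at h5
  rwa [ZMod.val_cast_of_lt h1, ZMod.val_cast_of_lt h2] at h5

/-- few constant terms give multiple roots -/
lemma nonsep (f₀ : (ZMod p)[X]) (h0 : derivative f₀ ≠ 0) (S : Finset ℕ) (hS : S ⊆ range p)
    (h : ∀ m ∈ S, ¬ (f₀ + C (m : ZMod p)).Separable) : S.card ≤ (derivative f₀).natDegree := by
  classical
  obtain ⟨Ω, i1, i2, i3⟩ : ∃ (Ω : Type) (_ : Field Ω) (_ : Algebra (ZMod p) Ω), IsAlgClosed Ω :=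
    ⟨AlgebraicClosure (ZMod p), inferInstance, inferInstance, inferInstance⟩
  have hsub : S.image (fun m : ℕ => algebraMap (ZMod p) Ω (m : ZMod p)) ⊆
      ((derivative f₀).aroots Ω).toFinset.image (fun ξ => -aeval ξ f₀) := by
    intro z hz
    rw [mem_image] at hz
    obtain ⟨m, hm, rfl⟩ := hz
    have h1 := h m hm
    rw [separable_def, isCoprime_iff_aeval_ne_zero_of_isAlgClosed (ZMod p) Ω] at h1
    push Not at h1
    obtain ⟨ξ, h2, h3⟩ := h1
    rw [derivative_add, derivative_C, add_zero] at h3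
    rw [mem_image]
    refine ⟨ξ, ?_, ?_⟩
    · rw [Multiset.mem_toFinset, mem_aroots]
      exact ⟨h0, h3⟩
    · rw [map_add, aeval_C] at h2
      rw [neg_eq_iff_eq_neg, eq_neg_iff_add_eq_zero]
      exact h2
  have hinj : Set.InjOn (fun m : ℕ => algebraMap (ZMod p) Ω (m : ZMod p)) S := by
    intro m hm m' hm' hmm
    exact range_inj S hS hm hm' ((algebraMap (ZMod p) Ω).injective hmm)
  rw [← card_image_of_injOn hinj]
  refine (card_le_card hsub).trans (card_image_le.trans ((Multiset.toFinset_card_le _).trans ?_))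
  exact (card_roots' _).trans natDegree_map_le

open Classical in
lemma bad_hyp (g : ℕ) (hg : 1 ≤ g) (h2 : p ≠ 2) (hp : p % (2 * g + 1) = 1) (h : ℤ[X]) (hh : h.natDegree ≤ 2 * g) :
    (((range p).filter (fun m : ℕ => ¬ Ord p g h (m : ℤ))).card : ℝ) ≤ (g : ℝ) ^ 2 / (2 * (2 * g + 1)) * p + 2 * g := by
  obtain ⟨h', hh'⟩ : ∃ h', h' = h.map (Int.castRingHom (ZMod p)) := ⟨_, rfl⟩
  have hd' : h'.natDegree ≤ 2 * g := by
    rw [hh']
    exact natDegree_map_le.trans hh
  obtain ⟨Q, hQ⟩ : ∃ Q, Q = (cm p (FM (2 * g + 1) h') g).det := ⟨_, rfl⟩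
  have hdet := det_deg g hg h2 hp h' hd'
  rw [← hQ] at hdet
  have hpoly : ∀ m : ℕ, poly p g h (m : ℤ) = X ^ (2 * g + 1) + h' + C (m : ZMod p) := by
    intro m
    unfold poly
    rw [hh']
    push_cast
    rfl
  have hev : ∀ m : ℕ, (cartierManin p g (poly p g h (m : ℤ))).det = Q.eval (m : ZMod p) := by
    intro m
    have e1 := cm_map p (evalRingHom (m : ZMod p)) (FM (2 * g + 1) h') g
    rw [FM_map, ← hQ, coe_evalRingHom] at e1
    rw [e1, hpoly]
    rfl
  have hfield : 0 < p := hf.out.pos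
  have hpg : (2 * g + 1 : ℕ) < p := by
    by_contra hcon
    push Not at hcon
    rcases hcon.lt_or_eq with h3 | h3
    · rw [Nat.mod_eq_of_lt h3] at hp
      exact absurd hp hf.out.one_lt.ne'
    · rw [← h3, Nat.mod_self] at hp
      omega
  have hder : derivative (X ^ (2 * g + 1) + h') ≠ 0 := by
    intro h0
    have h3 := congrArg (fun P : (ZMod p)[X] => P.coeff (2 * g)) h0
    simp only [coeff_derivative, coeff_add, coeff_X_pow, coeff_zero] at h3
    rw [if_pos trivial, coeff_eq_zero_of_natDegree_lt (by omega : h'.natDegree < 2 * g + 1), add_zero, one_mul] at h3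
    have h4 : ((2 * g + 1 : ℕ) : ZMod p) = 0 := by
      push_cast
      push_cast at h3
      exact h3
    rw [ZMod.natCast_eq_zero_iff] at h4
    exact absurd (Nat.le_of_dvd (by omega) h4) (by omega)
  have hsub : (range p).filter (fun m : ℕ => ¬ Ord p g h (m : ℤ)) ⊆
      ((range p).filter (fun m => ¬ (X ^ (2 * g + 1) + h' + C (m : ZMod p)).Separable)) ∪
      ((range p).filter (fun m => Q.eval ((m : ℕ) : ZMod p) = 0)) := by
    intro m hm
    rw [mem_filter] at hm
    rw [mem_union, mem_filter, mem_filter]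
    by_cases h3 : (X ^ (2 * g + 1) + h' + C (m : ZMod p)).Separable
    · right
      refine ⟨hm.1, ?_⟩
      by_contra h4
      apply hm.2
      refine ⟨?_, ?_⟩
      · rw [hpoly]
        exact h3
      · rw [hev]
        exact h4
    · left
      exact ⟨hm.1, h3⟩
  have h5 : ((range p).filter (fun m : ℕ => ¬ (X ^ (2 * g + 1) + h' + C (m : ZMod p)).Separable)).card ≤ 2 * g := by
    refine (nonsep (X ^ (2 * g + 1) + h') hder _ (filter_subset _ _) (fun m hm => (mem_filter.1 hm).2)).trans ?_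
    refine (natDegree_derivative_le _).trans ?_
    have : (X ^ (2 * g + 1) + h' : (ZMod p)[X]).natDegree ≤ 2 * g + 1 := by
      apply natDegree_add_le_of_degree_le
      · rw [natDegree_X_pow]
      · omega
    omega
  have h6 : ((range p).filter (fun m => Q.eval ((m : ℕ) : ZMod p) = 0)).card ≤ Q.natDegree := by
    rw [← card_image_of_injOn (range_inj _ (filter_subset _ _))]
    refine (card_le_card (t := Q.roots.toFinset) ?_).trans ((Multiset.toFinset_card_le _).trans (card_roots' Q))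
    intro z hz
    rw [mem_image] at hz
    obtain ⟨m, hm, rfl⟩ := hz
    rw [Multiset.mem_toFinset, mem_roots hdet.1]
    exact (mem_filter.1 hm).2
  have h7 := (card_le_card hsub).trans (card_union_le _ _)
  have h8 : (((range p).filter (fun m : ℕ => ¬ Ord p g h (m : ℤ))).card : ℝ) ≤ 2 * g + Q.natDegree := by
    exact_mod_cast h7.trans (Nat.add_le_add h5 h6)
  have h9 : 2 * (2 * (g : ℝ) + 1) * Q.natDegree ≤ (p : ℝ) * g ^ 2 := by
    have h10 : 2 * (2 * g + 1) * Q.natDegree ≤ p * g ^ 2 := hdet.2.trans (Nat.mul_le_mul_right _ (Nat.sub_le _ _))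
    exact_mod_cast h10
  have h11 : (Q.natDegree : ℝ) ≤ (g : ℝ) ^ 2 / (2 * (2 * g + 1)) * p := by
    rw [div_mul_eq_mul_div, le_div_iff₀ (by positivity)]
    linarith
  linarith

open Classical in
/-- several curves -/
lemma bad_hyps {r : ℕ} (g : Fin r → ℕ) (h : Fin r → ℤ[X]) (hg : ∀ j, 1 ≤ g j) (h2 : p ≠ 2) (hp : ∀ j, p % (2 * g j + 1) = 1)
    (hh : ∀ j, (h j).natDegree ≤ 2 * g j) :
    (((range p).filter (fun m : ℕ => ¬ ∀ j, Ord p (g j) (h j) (m : ℤ))).card : ℝ) ≤
      (∑ j, (g j : ℝ) ^ 2 / (2 * (2 * g j + 1))) * p + ∑ j, 2 * (g j : ℝ) := by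
  have hsub : (range p).filter (fun m : ℕ => ¬ ∀ j, Ord p (g j) (h j) (m : ℤ)) ⊆
      (univ : Finset (Fin r)).biUnion (fun j => (range p).filter (fun m : ℕ => ¬ Ord p (g j) (h j) (m : ℤ))) := by
    intro m hm
    rw [mem_filter] at hm
    obtain ⟨hm1, hm2⟩ := hm
    push Not at hm2
    obtain ⟨j, hj⟩ := hm2
    rw [mem_biUnion]
    exact ⟨j, mem_univ j, mem_filter.2 ⟨hm1, hj⟩⟩
  have h1 := (card_le_card hsub).trans card_biUnion_le
  have h3 : (((range p).filter (fun m : ℕ => ¬ ∀ j, Ord p (g j) (h j) (m : ℤ))).card : ℝ) ≤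
      ∑ j, (((range p).filter (fun m : ℕ => ¬ Ord p (g j) (h j) (m : ℤ))).card : ℝ) := by exact_mod_cast h1
  refine h3.trans ((sum_le_sum fun j _ => bad_hyp (g j) (hg j) h2 (hp j) (h j) (hh j)).trans (le_of_eq ?_))
  rw [sum_add_distrib, sum_mul]

end

end Pool.Agent.X35.OR
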