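import Pool.Agent.X22.CM2
import Pool.Agent.X35.OR.Hyp

/-! Ordinary reduction of the summands of `Y ^ N = X ^ n + h (X) + m` modulo `p`, as a function of `m`. -/

set_option autoImplicit false

namespace Pool.Agent.X35.OR
open Finset Polynomial
open Pool.Agent.X22.CM

/-- the polynomial modulo `p` -/
noncomputable def polyS (p n : ℕ) (h : ℤ[X]) (m : ℤ) : (ZMod p)[X] :=
  X ^ n + h.map (Int.castRingHom (ZMod p)) + C (m : ZMod p)

/-- the dimension of the summand -/
def dimension (n N c : ℕ) : ℕ := n * c / N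

/-- a block of the Cartier–Manin matrix -/
noncomputable def cmS (p n N c : ℕ) (f : (ZMod p)[X]) : Matrix (Fin (dimension n N c)) (Fin (dimension n N c)) (ZMod p) :=
  fun i j => (f ^ (c * ((p - 1) / N))).coeff (((i : ℕ) + 1) * p - ((j : ℕ) + 1))

/-- good reduction and invertible blocks -/
def OrdS (p n N : ℕ) (C : Finset ℕ) (h : ℤ[X]) (m : ℤ) : Prop :=
  (polyS p n h m).Separable ∧ ∀ c ∈ C, (cmS p n N c (polyS p n h m)).det ≠ 0

lemma ordS_mod (p n N : ℕ) (C : Finset ℕ) (h : ℤ[X]) (m m' : ℤ) (hm : m ≡ m' [ZMOD (p : ℕ)]) : OrdS p n N C h m ↔ OrdS p n N C h m' := by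
  unfold OrdS polyS
  rw [(ZMod.intCast_eq_intCast_iff m m' p).2 hm]

/-- the defect -/
noncomputable def defect (n N : ℕ) (C : Finset ℕ) : ℝ :=
  ∑ c ∈ C, ((dimension n N c : ℝ) * c / N - (dimension n N c : ℝ) * (dimension n N c + 1) / (2 * n))

section
variable {p : ℕ} [hf : Fact p.Prime]

/-- the determinant of one block -/
lemma one_block (n N c : ℕ) (hn : 2 ≤ n) (hN : 2 ≤ N) (hnN : Nat.Coprime n N) (hc1 : 1 ≤ c) (hcN : c < N) (hp : p % (n * N) = 1)
    (h : (ZMod p)[X]) (hh : h.natDegree ≤ n - 1) :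
    (cmg p (c * ((p - 1) / N)) (FM n h) (dimension n N c)).det ≠ 0 ∧
    ((cmg p (c * ((p - 1) / N)) (FM n h) (dimension n N c)).det.natDegree : ℝ) ≤
      ((dimension n N c : ℝ) * c / N - (dimension n N c : ℝ) * (dimension n N c + 1) / (2 * n)) * (p - 1) := by
  obtain ⟨a, ha⟩ : ∃ a, a = dimension n N c := ⟨_, rfl⟩
  have ha' : a = n * c / N := ha
  rw [← ha]
  obtain ⟨s, hs⟩ : ∃ s, p = n * N * s + 1 := ⟨p / (n * N), by
    have := Nat.div_add_mod p (n * N)
    rw [hp] at this
    exact this.symm⟩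
  have hp1 := hf.out.one_lt
  have hs1 : 1 ≤ s := by
    by_contra h0
    have : s = 0 := by omega
    rw [this, mul_zero] at hs
    omega
  have hN0 : 0 < N := by omega
  have hpN : (p - 1) / N = n * s := by
    rw [hs, Nat.add_sub_cancel, mul_comm n N, mul_assoc, Nat.mul_div_cancel_left _ hN0]
  obtain ⟨e, he⟩ : ∃ e, e = c * ((p - 1) / N) := ⟨_, rfl⟩
  rw [← he]
  have hen : e = c * (n * s) := by rw [he, hpN]
  have haN : a * N ≤ n * c := by rw [ha']; exact Nat.div_mul_le_self _ _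
  have haN' : a * N < n * c := by
    refine lt_of_le_of_ne haN (fun h0 => ?_)
    have h1 : N ∣ n * c := ⟨a, by rw [← h0, mul_comm]⟩
    have h2 : N ∣ c := hnN.symm.dvd_of_dvd_mul_left h1
    exact absurd (Nat.le_of_dvd (by omega) h2) (by omega)
  have han : a < n := by
    by_contra h0
    push Not at h0
    have h1 : n * N ≤ a * N := Nat.mul_le_mul_right _ h0
    have h2 : n * c < n * N := Nat.mul_lt_mul_of_pos_left hcN (by omega)
    omega
  have hns : 1 ≤ n * s := Nat.mul_pos (by omega) (by omega)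
  have hmain := det_deg' (p := p) n a e (N * s) han (by rw [hen]; exact Nat.mul_pos hc1 hns)
    (by
      rw [hen, hs]
      have h1 : c * (n * s) ≤ N * (n * s) := Nat.mul_le_mul_right _ hcN.le
      have h2 : N * (n * s) = n * N * s := by ring
      omega)
    (by rw [hs]; ring)
    (by
      rw [hen]
      calc a * (N * s) = (a * N) * s := by ring
        _ ≤ (n * c) * s := Nat.mul_le_mul_right _ haN
        _ = c * (n * s) := by ring)
    (by
      rw [hen, hs]
      have h1 : (a * N + 1) * (n * s) ≤ (n * c) * (n * s) := Nat.mul_le_mul_right _ haN'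
      have h2 : a ≤ n * s := by
        calc a ≤ n * 1 := by omega
          _ ≤ n * s := Nat.mul_le_mul_left _ hs1
      have h3 : a * (n * N * s + 1) = a * N * (n * s) + a := by ring
      have h4 : (a * N + 1) * (n * s) = a * N * (n * s) + n * s := by ring
      have h5 : n * (c * (n * s)) = (n * c) * (n * s) := by ring
      omega) h hh
  refine ⟨hmain.1, ?_⟩
  have h1 := hmain.2
  have hnR : (0 : ℝ) < n := by exact_mod_cast (by omega : 0 < n)
  have hNR : (0 : ℝ) < N := by exact_mod_cast hN0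
  have h2 : 2 * (n : ℝ) * ((cmg p e (FM n h) a).det.natDegree : ℝ) + (p - 1) * (a * (a + 1)) ≤ 2 * a * (n * e) := by
    have h3 : (((2 * n * (cmg p e (FM n h) a).det.natDegree + (p - 1) * (a * (a + 1)) : ℕ)) : ℝ) ≤ ((2 * a * (n * e) : ℕ) : ℝ) := by exact_mod_cast h1
    push_cast [Nat.cast_sub hp1.le] at h3
    exact h3
  have h4 : (e : ℝ) = c * (p - 1) / N := by
    have h5 : ((p : ℝ) - 1) = n * N * s := by
      have : (p : ℝ) = n * N * s + 1 := by exact_mod_cast hs
      linarith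
    rw [h5, hen]
    push_cast
    field_simp
  rw [h4] at h2
  have h6 : ((a : ℝ) * c / N - (a : ℝ) * (a + 1) / (2 * n)) * (p - 1) = (2 * a * (n * (c * (p - 1) / N)) - (p - 1) * (a * (a + 1))) / (2 * n) := by
    field_simp
  rw [h6, le_div_iff₀ (by positivity)]
  linarith

open Classical in
lemma bad_sup (n N : ℕ) (C : Finset ℕ) (hn : 2 ≤ n) (hN : 2 ≤ N) (hnN : Nat.Coprime n N) (hC : ∀ c ∈ C, 1 ≤ c ∧ c < N) (hp : p % (n * N) = 1)
    (h : ℤ[X]) (hh : h.natDegree ≤ n - 1) :
    (((range p).filter (fun m : ℕ => ¬ OrdS p n N C h (m : ℤ))).card : ℝ) ≤ defect n N C * p + (n + |defect n N C|) := by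
  obtain ⟨h', hh'⟩ : ∃ h', h' = h.map (Int.castRingHom (ZMod p)) := ⟨_, rfl⟩
  have hd' : h'.natDegree ≤ n - 1 := by
    rw [hh']
    exact natDegree_map_le.trans hh
  obtain ⟨Q, hQ⟩ : ∃ Q : ℕ → (ZMod p)[X], ∀ c, Q c = (cmg p (c * ((p - 1) / N)) (FM n h') (dimension n N c)).det := ⟨_, fun _ => rfl⟩
  have hdet : ∀ c ∈ C, Q c ≠ 0 ∧ ((Q c).natDegree : ℝ) ≤ ((dimension n N c : ℝ) * c / N - (dimension n N c : ℝ) * (dimension n N c + 1) / (2 * n)) * (p - 1) := by
    intro c hc
    rw [hQ]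
    exact one_block n N c hn hN hnN (hC c hc).1 (hC c hc).2 hp h' hd'
  have hpoly : ∀ m : ℕ, polyS p n h (m : ℤ) = X ^ n + h' + Polynomial.C (m : ZMod p) := by
    intro m
    unfold polyS
    rw [hh']
    push_cast
    rfl
  have hev : ∀ (m c : ℕ), (cmS p n N c (polyS p n h (m : ℤ))).det = (Q c).eval (m : ZMod p) := by
    intro m c
    have e1 := cmg_map p (c * ((p - 1) / N)) (evalRingHom (m : ZMod p)) (FM n h') (dimension n N c)
    rw [FM_map, ← hQ, coe_evalRingHom] at e1
    rw [e1, hpoly]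
    rfl
  have hnN2 : n ≤ n * N := Nat.le_mul_of_pos_right n (by omega)
  have hpn : n < p := by
    by_contra hcon
    push Not at hcon
    have h1 : p ≤ n * N := hcon.trans hnN2
    rcases h1.lt_or_eq with h3 | h3
    · rw [Nat.mod_eq_of_lt h3] at hp
      exact absurd hp hf.out.one_lt.ne'
    · rw [h3, Nat.mod_self] at hp
      omega
  have hder : derivative (X ^ n + h') ≠ 0 := by
    intro h0
    have h3 := congrArg (fun P : (ZMod p)[X] => P.coeff (n - 1)) h0
    simp only [coeff_derivative, coeff_add, coeff_X_pow, coeff_zero] at h3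
    rw [if_pos (by omega), coeff_eq_zero_of_natDegree_lt (by omega : h'.natDegree < n - 1 + 1), add_zero, one_mul] at h3
    have h4 : ((n : ℕ) : ZMod p) = 0 := by
      have h5 : n = n - 1 + 1 := by omega
      rw [h5]
      push_cast
      exact h3
    rw [ZMod.natCast_eq_zero_iff] at h4
    exact absurd (Nat.le_of_dvd (by omega) h4) (by omega)
  have hsub : (range p).filter (fun m : ℕ => ¬ OrdS p n N C h (m : ℤ)) ⊆
      ((range p).filter (fun m => ¬ (X ^ n + h' + Polynomial.C (m : ZMod p)).Separable)) ∪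
      C.biUnion (fun c => (range p).filter (fun m => (Q c).eval ((m : ℕ) : ZMod p) = 0)) := by
    intro m hm
    rw [mem_filter] at hm
    rw [mem_union, mem_filter, mem_biUnion]
    by_cases h3 : (X ^ n + h' + Polynomial.C (m : ZMod p)).Separable
    · right
      by_contra h4
      push Not at h4
      apply hm.2
      refine ⟨?_, ?_⟩
      · rw [hpoly]
        exact h3
      · intro c hc
        rw [hev]
        intro h5
        exact h4 c hc (mem_filter.2 ⟨hm.1, h5⟩)
    · left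
      exact ⟨hm.1, h3⟩
  have h5 : ((range p).filter (fun m : ℕ => ¬ (X ^ n + h' + Polynomial.C (m : ZMod p)).Separable)).card ≤ n := by
    refine (nonsep (X ^ n + h') hder _ (filter_subset _ _) (fun m hm => (mem_filter.1 hm).2)).trans ?_
    refine (natDegree_derivative_le _).trans ?_
    have : (X ^ n + h' : (ZMod p)[X]).natDegree ≤ n := by
      apply natDegree_add_le_of_degree_le
      · rw [natDegree_X_pow]
      · omega
    omega
  have h6 : ∀ c ∈ C, ((range p).filter (fun m => (Q c).eval ((m : ℕ) : ZMod p) = 0)).card ≤ (Q c).natDegree := by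
    intro c hc
    rw [← card_image_of_injOn (range_inj _ (filter_subset _ _))]
    refine (card_le_card (t := (Q c).roots.toFinset) ?_).trans ((Multiset.toFinset_card_le _).trans (card_roots' (Q c)))
    intro z hz
    rw [mem_image] at hz
    obtain ⟨m, hm, rfl⟩ := hz
    rw [Multiset.mem_toFinset, mem_roots (hdet c hc).1]
    exact (mem_filter.1 hm).2
  have h7 := (card_le_card hsub).trans (card_union_le _ _)
  have h8 : (C.biUnion (fun c => (range p).filter (fun m => (Q c).eval ((m : ℕ) : ZMod p) = 0))).card ≤ ∑ c ∈ C, (Q c).natDegree :=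
    card_biUnion_le.trans (sum_le_sum h6)
  have h9 : (((range p).filter (fun m : ℕ => ¬ OrdS p n N C h (m : ℤ))).card : ℝ) ≤ n + ((∑ c ∈ C, (Q c).natDegree : ℕ) : ℝ) := by
    exact_mod_cast h7.trans (Nat.add_le_add h5 h8)
  have h10 : ((∑ c ∈ C, (Q c).natDegree : ℕ) : ℝ) ≤ defect n N C * (p - 1) := by
    unfold defect
    push_cast
    rw [sum_mul]
    exact sum_le_sum (fun c hc => (hdet c hc).2)
  have h11 := neg_abs_le (defect n N C)
  linarith


open Classical in
/-- several curves -/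
lemma bad_sups {r : ℕ} (n N : Fin r → ℕ) (C : Fin r → Finset ℕ) (h : Fin r → ℤ[X]) (hn : ∀ j, 2 ≤ n j ∧ 2 ≤ N j ∧ Nat.Coprime (n j) (N j))
    (hC : ∀ j, ∀ c ∈ C j, 1 ≤ c ∧ c < N j) (hp : ∀ j, p % (n j * N j) = 1)
    (hh : ∀ j, (h j).natDegree ≤ n j - 1) :
    (((range p).filter (fun m : ℕ => ¬ ∀ j, OrdS p (n j) (N j) (C j) (h j) (m : ℤ))).card : ℝ) ≤
      (∑ j, defect (n j) (N j) (C j)) * p + ∑ j, ((n j : ℝ) + |defect (n j) (N j) (C j)|) := by
  have hsub : (range p).filter (fun m : ℕ => ¬ ∀ j, OrdS p (n j) (N j) (C j) (h j) (m : ℤ)) ⊆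
      (univ : Finset (Fin r)).biUnion (fun j => (range p).filter (fun m : ℕ => ¬ OrdS p (n j) (N j) (C j) (h j) (m : ℤ))) := by
    intro m hm
    rw [mem_filter] at hm
    obtain ⟨hm1, hm2⟩ := hm
    push Not at hm2
    obtain ⟨j, hj⟩ := hm2
    rw [mem_biUnion]
    exact ⟨j, mem_univ j, mem_filter.2 ⟨hm1, hj⟩⟩
  have h1 := (card_le_card hsub).trans card_biUnion_le
  have h3 : (((range p).filter (fun m : ℕ => ¬ ∀ j, OrdS p (n j) (N j) (C j) (h j) (m : ℤ))).card : ℝ) ≤
      ∑ j, (((range p).filter (fun m : ℕ => ¬ OrdS p (n j) (N j) (C j) (h j) (m : ℤ))).card : ℝ) := by exact_mod_cast h1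
  refine h3.trans ((sum_le_sum fun j _ => bad_sup (n j) (N j) (C j) (hn j).1 (hn j).2.1 (hn j).2.2 (hC j) (hp j) (h j) (hh j)).trans (le_of_eq ?_))
  rw [sum_add_distrib, sum_mul]

end

lemma defect_nonneg (n N : ℕ) (C : Finset ℕ) (hn : 2 ≤ n) (hN : 2 ≤ N) : 0 ≤ defect n N C := by
  unfold defect
  apply sum_nonneg
  intro c hc
  obtain ⟨a, ha⟩ : ∃ a, a = dimension n N c := ⟨_, rfl⟩
  rw [← ha]
  have ha' : a = n * c / N := ha
  have hnR : (0 : ℝ) < n := by exact_mod_cast (by omega : 0 < n)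
  have hNR : (0 : ℝ) < N := by exact_mod_cast (by omega : 0 < N)
  rcases Nat.eq_zero_or_pos a with h0 | h0
  · rw [h0]
    simp
  · have haN : (a : ℝ) * N ≤ n * c := by
      have : a * N ≤ n * c := by rw [ha']; exact Nat.div_mul_le_self _ _
      exact_mod_cast this
    have ha1 : (1 : ℝ) ≤ a := by exact_mod_cast h0
    have h1 : (a : ℝ) * (a + 1) / (2 * n) ≤ a * c / N := by
      rw [div_le_div_iff₀ (by positivity) hNR]
      have h2 : ((a : ℝ) + 1) * N ≤ 2 * (n * c) := by nlinarith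
      have h3 := mul_le_mul_of_nonneg_left h2 (by linarith : (0 : ℝ) ≤ a)
      nlinarith
    linarith

end Pool.Agent.X35.OR
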