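import Pool.Agent.X35.GV.Hyper

/-! The number of points of the double covers `w² = f + m g²` modulo `p`. -/

set_option autoImplicit false

namespace Pool.Agent.X35.OR
open Finset

/-- solutions of `w² = f(x) + m g(x)²` -/
noncomputable def pts (p : ℕ) {n : ℕ} (f g : MvPolynomial (Fin n) ℤ) (m : ℤ) : ℕ :=
  Nat.card {P : (Fin n → ZMod p) × ZMod p // P.2 ^ 2 = MvPolynomial.aeval P.1 f + (m : ZMod p) * (MvPolynomial.aeval P.1 g) ^ 2}

/-- solutions of `g(x) = 0` -/
noncomputable def zrs (p : ℕ) {n : ℕ} (g : MvPolynomial (Fin n) ℤ) : ℕ :=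
  Nat.card {x : Fin n → ZMod p // MvPolynomial.aeval x g = 0}

lemma pts_mod (p : ℕ) {n : ℕ} (f g : MvPolynomial (Fin n) ℤ) (m m' : ℤ) (h : m ≡ m' [ZMOD (p : ℕ)]) : pts p f g m = pts p f g m' := by
  unfold pts
  rw [(ZMod.intCast_eq_intCast_iff m m' p).2 h]

section
variable {p : ℕ} [hf : Fact p.Prime]

lemma card_sq (h2 : p ≠ 2) (X : Type) [Fintype X] (φ : X → ZMod p) :
    ((Nat.card {Q : X × ZMod p // Q.2 ^ 2 = φ Q.1} : ℕ) : ZMod p) = (Fintype.card X : ZMod p) + ∑ x : X, φ x ^ (p / 2) := by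
  classical
  have h3 : ringChar (ZMod p) ≠ 2 := by
    rw [ZMod.ringChar_zmod_n]
    exact h2
  have h1 : ∀ x, (∑ w : ZMod p, if w ^ 2 = φ x then (1 : ℤ) else 0) = quadraticChar (ZMod p) (φ x) + 1 := by
    intro x
    rw [← quadraticChar_card_sqrts h3 (φ x)]
    rw [Finset.sum_boole]
    congr 2
    ext w
    simp
  have h4 : ((Nat.card {Q : X × ZMod p // Q.2 ^ 2 = φ Q.1} : ℕ) : ℤ) = ∑ x : X, (quadraticChar (ZMod p) (φ x) + 1) := by
    rw [Nat.card_eq_fintype_card, Fintype.card_subtype, card_filter, ← univ_product_univ, sum_product]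
    push_cast
    exact sum_congr rfl fun x _ => h1 x
  have h5 := congrArg (fun z : ℤ => (z : ZMod p)) h4
  push_cast at h5
  rw [h5, sum_add_distrib, sum_const, card_univ, nsmul_eq_mul, mul_one, add_comm]
  congr 1
  apply sum_congr rfl
  intro x _
  rw [quadraticChar_eq_pow_of_char_ne_two' h3, ZMod.card]

lemma sum_pow_g {n : ℕ} (hn : 1 ≤ n) (g : MvPolynomial (Fin n) ℤ) :
    ∑ x : Fin n → ZMod p, ((MvPolynomial.aeval x g : ZMod p)) ^ (p - 1) = -(zrs p g : ZMod p) := by
  classical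
  have h4 : ∀ t : ZMod p, t ^ (p - 1) = if t = 0 then 0 else 1 := by
    intro t
    split_ifs with h0
    · rw [h0, zero_pow]
      have := hf.out.one_lt
      omega
    · exact ZMod.pow_card_sub_one_eq_one h0
  rw [sum_congr rfl (fun x _ => h4 _)]
  have h5 : ∀ x : Fin n → ZMod p, (if (MvPolynomial.aeval x g : ZMod p) = 0 then (0 : ZMod p) else 1) =
      1 - if (MvPolynomial.aeval x g : ZMod p) = 0 then 1 else 0 := by
    intro x
    split_ifs <;> simp
  rw [sum_congr rfl (fun x _ => h5 x), sum_sub_distrib, sum_const, card_univ, Fintype.card_fun, ZMod.card, Fintype.card_fin, nsmul_eq_mul, mul_one,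
    sum_boole]
  unfold zrs
  rw [Nat.card_eq_fintype_card, Fintype.card_subtype]
  push_cast
  rw [CharP.cast_eq_zero (ZMod p) p, zero_pow (by omega), zero_sub]

open Classical in
/-- at most half of the residue classes are bad -/
theorem bad_dc (h2 : p ≠ 2) {n : ℕ} (hn : 1 ≤ n) (f g : MvPolynomial (Fin n) ℤ) (hg : ¬ p ∣ zrs p g) :
    ((range p).filter (fun m : ℕ => p ∣ pts p f g (m : ℤ))).card ≤ p / 2 := by
  have hp2 : 2 * (p / 2) = p - 1 := by
    have := hf.out.eq_two_or_odd
    omega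
  obtain ⟨Q, hQ⟩ : ∃ Q : Polynomial (ZMod p), Q = ∑ x : Fin n → ZMod p,
      (Polynomial.C (MvPolynomial.aeval x f) + Polynomial.C ((MvPolynomial.aeval x g) ^ 2) * Polynomial.X) ^ (p / 2) := ⟨_, rfl⟩
  have hdeg1 : ∀ x : Fin n → ZMod p, (Polynomial.C (MvPolynomial.aeval x f) + Polynomial.C ((MvPolynomial.aeval x g) ^ 2) * Polynomial.X :
      Polynomial (ZMod p)).natDegree ≤ 1 := by
    intro x
    rw [add_comm]
    exact Polynomial.natDegree_linear_le
  have hdeg : Q.natDegree ≤ p / 2 := by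
    rw [hQ]
    apply Polynomial.natDegree_sum_le_of_forall_le
    intro x _
    refine (Polynomial.natDegree_pow_le_of_le (p / 2) (hdeg1 x)).trans ?_
    rw [mul_one]
  have hcoef : Q.coeff (p / 2) = -(zrs p g : ZMod p) := by
    rw [hQ, Polynomial.finset_sum_coeff, ← sum_pow_g hn g]
    apply sum_congr rfl
    intro x _
    have := Polynomial.coeff_pow_of_natDegree_le (hdeg1 x) (m := p / 2)
    rw [mul_one] at this
    rw [this, ← hp2, pow_mul]
    congr 1
    rw [Polynomial.coeff_add, Polynomial.coeff_C, if_neg one_ne_zero, Polynomial.coeff_C_mul, Polynomial.coeff_X_one, mul_one, zero_add]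
  have hQ0 : Q ≠ 0 := by
    intro h0
    rw [h0, Polynomial.coeff_zero] at hcoef
    apply hg
    rw [← ZMod.natCast_eq_zero_iff]
    exact neg_eq_zero.1 hcoef.symm
  have hev : ∀ m : ℕ, ((pts p f g (m : ℤ) : ℕ) : ZMod p) = Q.eval (m : ZMod p) := by
    intro m
    have e1 := card_sq h2 (Fin n → ZMod p) (fun x => MvPolynomial.aeval x f + ((m : ℤ) : ZMod p) * (MvPolynomial.aeval x g) ^ 2)
    rw [Fintype.card_fun, ZMod.card, Fintype.card_fin] at e1
    push_cast at e1
    rw [CharP.cast_eq_zero (ZMod p) p, zero_pow (by omega), zero_add] at e1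
    unfold pts
    push_cast
    rw [e1, hQ, Polynomial.eval_finset_sum]
    apply sum_congr rfl
    intro x _
    rw [Polynomial.eval_pow, Polynomial.eval_add, Polynomial.eval_C, Polynomial.eval_mul, Polynomial.eval_C, Polynomial.eval_X,
      mul_comm (m : ZMod p)]
  have hsub : ((range p).filter (fun m : ℕ => p ∣ pts p f g (m : ℤ))).image (fun m : ℕ => (m : ZMod p)) ⊆ Q.roots.toFinset := by
    intro z hz
    rw [mem_image] at hz
    obtain ⟨m, hm, rfl⟩ := hz
    rw [mem_filter] at hm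
    rw [Multiset.mem_toFinset, Polynomial.mem_roots hQ0, Polynomial.IsRoot.def, ← hev, ZMod.natCast_eq_zero_iff]
    exact hm.2
  have hinj : Set.InjOn (fun m : ℕ => (m : ZMod p)) ((range p).filter (fun m : ℕ => p ∣ pts p f g (m : ℤ))) := by
    intro m hm m' hm' h
    rw [mem_coe, mem_filter, mem_range] at hm hm'
    have h5 := congrArg ZMod.val h
    simp only at h5
    rwa [ZMod.val_cast_of_lt hm.1, ZMod.val_cast_of_lt hm'.1] at h5
  rw [← card_image_of_injOn hinj]
  exact (card_le_card hsub).trans ((Multiset.toFinset_card_le _).trans ((Polynomial.card_roots' Q).trans hdeg))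

end

end Pool.Agent.X35.OR
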