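import Pool.Agent.X35.OR.Dens
import Pool.Agent.X35.OR.DC
import Pool.Agent.X22.HS

/-! Proportions of vectors of residues. -/

set_option autoImplicit false

namespace Pool.Agent.X35.OR
open Finset Pool.Agent.X35.GV

open Classical in
lemma Prob_zmod (d p : ℕ) [hf : Fact p.Prime] (T : (Fin d → ℤ) → Prop) (T' : (Fin d → ZMod p) → Prop)
    (h : ∀ m : Fin d → ℤ, T m ↔ T' (fun i => (m i : ZMod p))) :
    Prob d p T = ((univ.filter T').card : ℝ) / (p : ℝ) ^ d := by
  unfold Prob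
  congr 2
  refine card_nbij' (fun m i => (m i : ZMod p)) (fun z i => (z i).val) ?_ ?_ ?_ ?_
  · intro m hm
    rw [mem_coe, mem_filter] at hm
    rw [mem_coe, mem_filter]
    refine ⟨mem_univ _, ?_⟩
    have h1 := (h _).1 hm.2
    simpa using h1
  · intro z hz
    rw [mem_coe, mem_filter] at hz
    rw [mem_coe, mem_filter, Fintype.mem_piFinset]
    refine ⟨fun i => mem_range.2 (ZMod.val_lt _), ?_⟩
    rw [h]
    have e : (fun i => ((((z i).val : ℕ) : ℤ) : ZMod p)) = z := by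
      funext i
      push_cast
      exact ZMod.natCast_zmod_val _
    rw [e]
    exact hz.2
  · intro m hm
    rw [mem_coe, mem_filter, Fintype.mem_piFinset] at hm
    funext i
    exact ZMod.val_cast_of_lt (mem_range.1 (hm.1 i))
  · intro z _
    funext i
    exact ZMod.natCast_zmod_val _

/-- the number of the solutions of `∑ m_i x_i ^ n + f = 0` modulo `p` -/
noncomputable def cyp (p : ℕ) {n : ℕ} (f : MvPolynomial (Fin n) ℤ) (m : Fin n → ℤ) : ℕ :=
  Nat.card {x : Fin n → ZMod p // ∑ i, (m i : ZMod p) * x i ^ n + MvPolynomial.aeval x f = 0}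

lemma cyp_per (p : ℕ) {n : ℕ} (f : MvPolynomial (Fin n) ℤ) : PerZ p (fun m => p ∣ cyp p f m) := by
  intro m m' h
  unfold cyp
  have e : ∀ i, (m i : ZMod p) = (m' i : ZMod p) := fun i => (ZMod.intCast_eq_intCast_iff _ _ p).2 (h i)
  simp only [e]

lemma aeval_map' (p : ℕ) {n : ℕ} (f : MvPolynomial (Fin n) ℤ) (x : Fin n → ZMod p) :
    MvPolynomial.aeval x f = MvPolynomial.eval x (MvPolynomial.map (Int.castRingHom (ZMod p)) f) := by
  rw [MvPolynomial.eval_map, MvPolynomial.aeval_def]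
  rfl

open Classical in
lemma prob_cy (p n : ℕ) (hp' : p.Prime) (hn : 2 ≤ n) (hpn : p % n = 1) (f : MvPolynomial (Fin n) ℤ) (hf : f.totalDegree ≤ n) :
    Prob n p (fun m => p ∣ cyp p f m) ≤ 1 - (1 - 1 / (n : ℝ)) ^ n := by
  have hfp : Fact p.Prime := ⟨hp'⟩
  obtain ⟨κ, hκ⟩ : ∃ κ, n * κ = p - 1 := by
    refine ⟨p / n, ?_⟩
    have := Nat.div_add_mod p n
    omega
  have hdeg : (MvPolynomial.map (Int.castRingHom (ZMod p)) f).totalDegree ≤ n := by
    refine le_trans ?_ hf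
    unfold MvPolynomial.totalDegree
    exact Finset.sup_mono (MvPolynomial.support_map_subset _ _)
  have h2 := Pool.Agent.X22.HS.count (MvPolynomial.map (Int.castRingHom (ZMod p)) f) hdeg κ hκ (by omega) n ∅ (by simp)
  obtain ⟨G, hG⟩ : ∃ G, G = univ.filter (fun m : Fin n → ZMod p => Pool.Agent.X22.HS.U (MvPolynomial.map (Int.castRingHom (ZMod p)) f) κ ∅ m ≠ 0) := ⟨_, rfl⟩
  rw [← hG] at h2
  have hp0 : (0 : ℝ) < p := by exact_mod_cast hp'.pos
  have h3 : (p - κ) ^ n ≤ G.card := by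
    exact Nat.le_of_mul_le_mul_right h2 (pow_pos hp'.pos n)
  have h4 : ∀ v : Fin n → ZMod p, (p ∣ Nat.card {x : Fin n → ZMod p // ∑ i, v i * x i ^ n + MvPolynomial.aeval x f = 0}) ↔ v ∉ G := by
    intro v
    rw [hG, mem_filter, not_and]
    have e1 := Pool.Agent.X22.HS.points_eq (MvPolynomial.map (Int.castRingHom (ZMod p)) f) κ hκ (by omega) v
    simp only [← aeval_map'] at e1
    rw [← ZMod.natCast_eq_zero_iff, e1, neg_eq_zero]
    constructor
    · intro h5 _ h6
      exact h6 h5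
    · intro h5
      by_contra h6
      exact h5 (mem_univ _) h6
  have h1 := Prob_zmod n p (fun m => p ∣ cyp p f m) (fun v => v ∉ G) (fun m => h4 _)
  have h5 : ∀ D : DecidablePred fun v : Fin n → ZMod p => v ∉ G, (((@Finset.filter _ (fun v => v ∉ G) D univ).card : ℕ) : ℝ) =
      (p : ℝ) ^ n - G.card := by
    intro D
    have e2 : @Finset.filter _ (fun v => v ∉ G) D univ = Gᶜ := by
      ext v
      rw [mem_filter, mem_compl]
      simp
    rw [e2, card_compl, Fintype.card_fun, ZMod.card, Fintype.card_fin, Nat.cast_sub]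
    · push_cast
      rfl
    · have := card_le_univ G
      rwa [Fintype.card_fun, ZMod.card, Fintype.card_fin] at this
  rw [h1, h5, sub_div, div_self (pow_pos hp0 n).ne']
  have hn0 : (0 : ℝ) < n := by exact_mod_cast (by omega : 0 < n)
  have hn1 : (1 : ℝ) ≤ n := by exact_mod_cast (by omega : 1 ≤ n)
  have hκp : κ ≤ p := by
    have : κ ≤ n * κ := Nat.le_mul_of_pos_left κ (by omega)
    omega
  have hκr : (n : ℝ) * κ ≤ p := by
    have : n * κ ≤ p := by omega
    exact_mod_cast this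
  have h7 : (1 - 1 / (n : ℝ)) ^ n * (p : ℝ) ^ n ≤ G.card := by
    have h8 : (((p - κ : ℕ) : ℝ)) ^ n ≤ G.card := by exact_mod_cast h3
    refine le_trans ?_ h8
    rw [← mul_pow, Nat.cast_sub hκp]
    apply pow_le_pow_left₀
    · apply mul_nonneg _ hp0.le
      rw [sub_nonneg, div_le_one hn0]
      exact hn1
    · have h9 : (κ : ℝ) ≤ 1 / (n : ℝ) * p := by
        rw [div_mul_eq_mul_div, one_mul, le_div_iff₀ hn0]
        linarith
      linarith
  have h10 : (1 - 1 / (n : ℝ)) ^ n ≤ G.card / (p : ℝ) ^ n := by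
    rw [le_div_iff₀ (pow_pos hp0 n)]
    exact h7
  linarith

open Classical in
/-- several double covers with independent parameters -/
lemma prob_dcs (p r : ℕ) (hp' : p.Prime) (h2 : p ≠ 2) (n : Fin r → ℕ) (hn : ∀ j, 1 ≤ n j) (f g : ∀ j : Fin r, MvPolynomial (Fin (n j)) ℤ)
    (hg : ∀ j, ¬ p ∣ zrs p (g j)) :
    Prob r p (fun m => ¬ ∀ j, ¬ p ∣ pts p (f j) (g j) (m j)) ≤ 1 - (1 / 2 : ℝ) ^ r := by
  have hfp : Fact p.Prime := ⟨hp'⟩
  have hp0 : (0 : ℝ) < p := by exact_mod_cast hp'.pos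
  have hgood : ∀ j, (p : ℝ) / 2 ≤ (((range p).filter (fun m : ℕ => ¬ p ∣ pts p (f j) (g j) (m : ℤ))).card : ℝ) := by
    intro j
    have h3 := bad_dc (p := p) h2 (hn j) (f j) (g j) (hg j)
    have h4 := card_filter_add_card_filter_not (s := range p) (p := fun m : ℕ => p ∣ pts p (f j) (g j) (m : ℤ))
    rw [card_range] at h4
    have h5 : p ≤ 2 * ((range p).filter (fun m : ℕ => ¬ p ∣ pts p (f j) (g j) (m : ℤ))).card := by omega
    have h6 : (p : ℝ) ≤ 2 * (((range p).filter (fun m : ℕ => ¬ p ∣ pts p (f j) (g j) (m : ℤ))).card : ℝ) := by exact_mod_cast h5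
    linarith
  unfold Prob
  have h7 : (Fintype.piFinset (fun _ : Fin r => range p)).filter (fun m => ∀ j, ¬ p ∣ pts p (f j) (g j) ((m j : ℕ) : ℤ)) =
      Fintype.piFinset (fun j => (range p).filter (fun m : ℕ => ¬ p ∣ pts p (f j) (g j) (m : ℤ))) := by
    ext m
    rw [mem_filter, Fintype.mem_piFinset, Fintype.mem_piFinset]
    simp only [mem_filter]
    constructor
    · intro h j
      exact ⟨h.1 j, h.2 j⟩
    · intro h
      exact ⟨fun j => (h j).1, fun j => (h j).2⟩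
  have h8 := card_filter_add_card_filter_not (s := Fintype.piFinset (fun _ : Fin r => range p)) (p := fun m => ∀ j, ¬ p ∣ pts p (f j) (g j) ((m j : ℕ) : ℤ))
  rw [h7, Fintype.card_piFinset, Fintype.card_piFinset_const, card_range] at h8
  have h9 : ((p : ℝ) / 2) ^ r ≤ ∏ j : Fin r, (((range p).filter (fun m : ℕ => ¬ p ∣ pts p (f j) (g j) (m : ℤ))).card : ℝ) := by
    calc ((p : ℝ) / 2) ^ r = ∏ _j : Fin r, ((p : ℝ) / 2) := by rw [prod_const, card_univ, Fintype.card_fin]
      _ ≤ _ := prod_le_prod (fun j _ => by positivity) (fun j _ => hgood j)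
  have h10 : (∏ j : Fin r, (((range p).filter (fun m : ℕ => ¬ p ∣ pts p (f j) (g j) (m : ℤ))).card : ℝ)) +
      (((Fintype.piFinset (fun _ : Fin r => range p)).filter (fun m => ¬ ∀ j, ¬ p ∣ pts p (f j) (g j) ((m j : ℕ) : ℤ))).card : ℝ) = (p : ℝ) ^ r := by
    exact_mod_cast h8
  rw [div_le_iff₀ (pow_pos hp0 r), sub_mul, one_mul, ← mul_pow]
  have h11 : (1 / 2 * (p : ℝ)) ^ r = ((p : ℝ) / 2) ^ r := by
    congr 1
    ring
  rw [h11]
  have h12 : (((Fintype.piFinset (fun _ : Fin r => range p)).filter (fun m => ¬ ∀ j, ¬ p ∣ pts p (f j) (g j) ((m j : ℕ) : ℤ))).card : ℝ) ≤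
      (p : ℝ) ^ r - ((p : ℝ) / 2) ^ r := by linarith
  refine le_trans (le_of_eq ?_) h12
  congr!

lemma dcs_per (p r : ℕ) (n : Fin r → ℕ) (f g : ∀ j : Fin r, MvPolynomial (Fin (n j)) ℤ) :
    PerZ p (fun m : Fin r → ℤ => ¬ ∀ j, ¬ p ∣ pts p (f j) (g j) (m j)) := by
  intro m m' h
  rw [not_iff_not]
  exact forall_congr' fun j => by rw [pts_mod p (f j) (g j) _ _ (h j)]

end Pool.Agent.X35.OR
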