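import Pool.Agent.X35.OR.Consec
import Pool.Agent.TH869.SQ.Cs

/-! Lower bounds for the number of strings of consecutive primes with given properties, near sequences. -/

set_option autoImplicit false

namespace Pool.Agent.X35.OR
open Finset Pool.Agent.X35.GV

lemma prod_sub_le {s : ℕ} (x y : Fin s → ℝ) (ε : ℝ) (hε : 0 ≤ ε) (hx : ∀ j, 0 ≤ x j ∧ x j ≤ 1) (hy : ∀ j, 0 ≤ y j ∧ y j ≤ 1)
    (h : ∀ j, x j - ε ≤ y j) : ∏ j, x j - s * ε ≤ ∏ j, y j := by
  induction s with
  | zero => simp
  | succ s ih =>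
    rw [Fin.prod_univ_succ, Fin.prod_univ_succ]
    have h1 := ih (fun j => x j.succ) (fun j => y j.succ) (fun j => hx _) (fun j => hy _) (fun j => h _)
    have h2 : 0 ≤ ∏ j : Fin s, x j.succ := prod_nonneg fun j _ => (hx _).1
    have h3 : ∏ j : Fin s, x j.succ ≤ 1 := prod_le_one (fun j _ => (hx _).1) fun j _ => (hx _).2
    have h4 := h 0
    have h5 := hx 0
    have h6 := hy 0
    push_cast
    have hs : 0 ≤ (s : ℝ) * ε := by positivity
    -- y0 * Y ≥ y0 * (X - s ε) ≥ y0 X - s ε ≥ (x0 - ε) X - s ε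
    have h7 : y 0 * (∏ j : Fin s, x j.succ - s * ε) ≤ y 0 * ∏ j : Fin s, y j.succ := mul_le_mul_of_nonneg_left h1 h6.1
    have h8 : (x 0 - ε) * ∏ j : Fin s, x j.succ ≤ y 0 * ∏ j : Fin s, x j.succ := mul_le_mul_of_nonneg_right h4 h2
    have h9 : y 0 * (s * ε) ≤ s * ε := by nlinarith
    have h10 : ε * ∏ j : Fin s, x j.succ ≤ ε := by nlinarith
    nlinarith

lemma sum_inv_shift (K : ℕ) : ∑ k ∈ range K, (1 : ℝ) / (k + 1) ≤ 1 + Real.log K := by
  have h2 := harmonic_le_one_add_log K
  refine le_trans (le_of_eq ?_) h2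
  rw [harmonic]
  push_cast
  exact sum_congr rfl fun i _ => by rw [one_div]

lemma absorb4 (δ T : ℝ) (hδ : 0 < δ) (hT : 0 ≤ T) : ∃ x₀ : ℝ, ∀ x : ℝ, x₀ ≤ x → T * (1 + Real.log x) ≤ x ^ (1 / 2 + δ) / 2 := by
  have h1 := (isLittleO_log_rpow_atTop (show (0 : ℝ) < 1 / 2 by norm_num)).bound (show (0 : ℝ) < 1 by norm_num)
  have h2 : Filter.Tendsto (fun x : ℝ => x ^ δ) Filter.atTop Filter.atTop := tendsto_rpow_atTop hδ
  have h3 := h2.eventually_ge_atTop (4 * T)
  obtain ⟨x₀, hx₀⟩ := Filter.eventually_atTop.1 (h1.and (h3.and (Filter.eventually_ge_atTop (1 : ℝ))))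
  refine ⟨x₀, fun x hx => ?_⟩
  obtain ⟨h4, h5, h6⟩ := hx₀ x hx
  have hx0 : 0 < x := by linarith
  rw [one_mul, Real.norm_eq_abs, Real.norm_eq_abs, abs_of_nonneg (Real.log_nonneg h6), abs_of_pos (Real.rpow_pos_of_pos hx0 _)] at h4
  have h7 : 1 ≤ x ^ (1 / 2 : ℝ) := Real.one_le_rpow h6 (by norm_num)
  rw [Real.rpow_add hx0]
  have h8 : T * (1 + Real.log x) ≤ T * (2 * x ^ (1 / 2 : ℝ)) := mul_le_mul_of_nonneg_left (by linarith) hT
  nlinarith

open Classical in
/-- **strings of primes with given properties** -/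
theorem consec_dens (s B : ℕ) (hs : 1 ≤ s) (hB : 1 ≤ B) (δ : ℝ) (hδ : 0 < δ) : ∃ κ C : ℝ, 0 < κ ∧ 0 < C ∧
    ∀ (v : ℕ → ℝ) (τ θ : ℝ), (∀ i, 1 ≤ v i) → 0 ≤ τ → θ < 1 → (∀ t : ℝ, τ < t → Summable (fun i => v i ^ (-t))) →
    ∀ (Γ : Type) [Countable Γ] (q : Γ → ℕ → ℕ), (∀ c, StrictMono (q c) ∧ ∀ k, (q c k).Prime ∧ q c k ≤ (k + 2) ^ B) →
    ∀ (T : Γ → Fin s → ℕ → ℤ → Prop) (L : Γ → Fin s → ℕ → ℝ) (M : Γ → ℝ), (∀ c, 0 ≤ M c) → (∀ c j k, 0 ≤ L c j (q c k) ∧ L c j (q c k) ≤ 1) →
    (∀ c j k, ∀ m m' : ℤ, m ≡ m' [ZMOD (q c k : ℕ)] → (T c j (q c k) m ↔ T c j (q c k) m')) →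
    (∀ c j k, L c j (q c k) * q c k - M c ≤ (((range (q c k)).filter (fun m : ℕ => T c j (q c k) (m : ℤ))).card : ℝ)) →
    ∃ E : Set ℝ, dimH E ≤ ENNReal.ofReal ((1 - κ + τ) / (1 - θ)) ∧ ∀ α : ℝ, 0 < α → α ∉ E → ∀ c : Γ, ∃ i₀ : ℕ,
      ∀ i : ℕ, i₀ ≤ i → ∀ n : ℤ, |(|(n : ℝ)|) - α * v i| ≤ v i ^ θ →
        ∀ K : ℕ, Real.log |(n : ℝ)| ^ C ≤ K → (K : ℝ) ≤ |(n : ℝ)| ^ κ →
          ∑ k ∈ range K, ∏ j : Fin s, L c j (q c (k + j)) - (K : ℝ) ^ (1 / 2 + δ) ≤
            (((range K).filter (fun k => ∀ j : Fin s, T c j (q c (k + j)) n)).card : ℝ) := by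
  obtain ⟨κ, C, hκ, hC, HH⟩ := consec s B hs hB δ hδ
  refine ⟨κ, C, hκ, hC, fun v τ θ hv1 hτ hθ hv Γ _ q hq T L M hM hL hper hb => ?_⟩
  obtain ⟨E, hE1, hE2⟩ := HH v τ θ hv1 hτ hθ hv Γ q hq (fun c j p n => if T c j p n then 1 else 0) (fun _ => 1) (fun _ => le_rfl)
    (by
      intro c j k m m' h
      simp only [hper c j k m m' h])
    (by
      intro c j k n
      split_ifs <;> simp)
  refine ⟨E, hE1, fun α hα hαE c => ?_⟩
  obtain ⟨i₁, hi₁⟩ := hE2 α hα hαE c
  obtain ⟨x₀, hx₀⟩ := absorb4 δ (s * M c) hδ (by have := hM c; positivity)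
  obtain ⟨i₂, hi₂⟩ := log_large hv1 hτ hθ hv α hα (max x₀ 3) C hC
  refine ⟨max i₁ i₂, fun i hi n hn K hK1 hK2 => ?_⟩
  have hlarge := hi₂ i (le_trans (le_max_right _ _) hi) n hn
  have hxx : x₀ ≤ K := ((le_max_left _ _).trans hlarge).trans hK1
  have hmain := hi₁ i (le_trans (le_max_left _ _) hi) n hn K hK1 hK2
  have h1 : ∑ k ∈ range K, ∏ j : Fin s, (if T c j (q c (k + j)) n then (1 : ℝ) else 0) =
      (((range K).filter (fun k => ∀ j : Fin s, T c j (q c (k + j)) n)).card : ℝ) := by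
    rw [card_filter]
    push_cast
    apply sum_congr rfl
    intro k _
    by_cases h : ∀ j : Fin s, T c j (q c (k + j)) n
    · rw [if_pos h, prod_eq_one]
      intro j _
      rw [if_pos (h j)]
    · rw [if_neg h]
      push Not at h
      obtain ⟨j, hj⟩ := h
      rw [prod_eq_zero (mem_univ j)]
      rw [if_neg hj]
  rw [sum_sub_distrib, h1] at hmain
  have h2 : ∑ k ∈ range K, ∏ j : Fin s, L c j (q c (k + j)) - s * M c * (1 + Real.log K) ≤
      ∑ k ∈ range K, ∏ j : Fin s, avg (q c (k + j)) (fun n => if T c j (q c (k + j)) n then (1 : ℝ) else 0) := by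
    have h3 : ∀ k ∈ range K, ∏ j : Fin s, L c j (q c (k + j)) - s * M c * (1 / ((k : ℝ) + 1)) ≤
        ∏ j : Fin s, avg (q c (k + j)) (fun n => if T c j (q c (k + j)) n then (1 : ℝ) else 0) := by
      intro k _
      have h4 := prod_sub_le (fun j : Fin s => L c j (q c (k + j))) (fun j : Fin s => avg (q c (k + j)) (fun n => if T c j (q c (k + j)) n then (1 : ℝ) else 0))
        (M c * (1 / ((k : ℝ) + 1))) (mul_nonneg (hM c) (by positivity)) (fun j => hL c j _) (fun j => by
          have hp := ((hq c).2 (k + j)).1.pos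
          have hp0 : (0 : ℝ) < q c (k + j) := by exact_mod_cast hp
          unfold avg
          constructor
          · apply div_nonneg _ hp0.le
            exact sum_nonneg fun m _ => by beta_reduce; split_ifs <;> norm_num
          · rw [div_le_one hp0]
            calc ∑ m ∈ range (q c (k + j)), (if T c j (q c (k + j)) (m : ℤ) then (1 : ℝ) else 0) ≤ ∑ _m ∈ range (q c (k + j)), (1 : ℝ) :=
                  sum_le_sum fun m _ => by beta_reduce; split_ifs <;> norm_num
              _ = q c (k + j) := by rw [sum_const, card_range, nsmul_eq_mul, mul_one])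
        (fun j => by
          have hp := ((hq c).2 (k + j)).1.pos
          have hp0 : (0 : ℝ) < q c (k + j) := by exact_mod_cast hp
          have h5 := hb c j (k + j)
          have h6 : (k : ℝ) + 1 ≤ q c (k + j) := by
            have h7 : k + j < q c (k + j) := by
              have h8 := (hq c).1.id_le (k + j)
              have h9 : q c (k + j) ≠ k + j := by
                intro he
                -- a strictly increasing sequence of primes is larger than the identity
                have h10 : q c 0 ≤ 0 := by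
                  by_contra hcon
                  push Not at hcon
                  have h11 : ∀ t : ℕ, t + 1 ≤ q c t := by
                    intro t
                    induction t with
                    | zero => omega
                    | succ t ih =>
                      have := (hq c).1 (Nat.lt_succ_self t)
                      show t + 1 + 1 ≤ q c (t + 1)
                      have h12 : q c t < q c (t + 1) := this
                      omega
                  have := h11 (k + j)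
                  omega
                have := ((hq c).2 0).1.pos
                omega
              simp only [id] at h8
              omega
            have h7' : (k : ℝ) + 1 ≤ ((k + j + 1 : ℕ) : ℝ) := by push_cast; linarith [(Nat.cast_nonneg (α := ℝ) (j : ℕ))]
            exact h7'.trans (by exact_mod_cast h7)
          have h8 : avg (q c (k + j)) (fun n => if T c j (q c (k + j)) n then (1 : ℝ) else 0) =
              (((range (q c (k + j))).filter (fun m : ℕ => T c j (q c (k + j)) (m : ℤ))).card : ℝ) / q c (k + j) := by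
            unfold avg
            congr 1
            rw [card_filter]
            push_cast
            rfl
          rw [h8, le_div_iff₀ hp0, sub_mul]
          have h9 : M c ≤ M c * (1 / ((k : ℝ) + 1)) * q c (k + j) := by
            have hk : (0 : ℝ) < (k : ℝ) + 1 := by positivity
            rw [mul_assoc, one_div, inv_mul_eq_div]
            have : 1 ≤ (q c (k + j) : ℝ) / ((k : ℝ) + 1) := (one_le_div hk).2 h6
            have := hM c
            nlinarith
          linarith)
      have h10 : (s : ℝ) * (M c * (1 / ((k : ℝ) + 1))) = s * M c * (1 / ((k : ℝ) + 1)) := by ring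
      rw [h10] at h4
      exact h4
    have h4 := sum_le_sum h3
    rw [sum_sub_distrib, ← mul_sum] at h4
    have h5 := sum_inv_shift K
    have h6 : s * M c * ∑ k ∈ range K, (1 : ℝ) / ((k : ℝ) + 1) ≤ s * M c * (1 + Real.log K) :=
      mul_le_mul_of_nonneg_left h5 (by have := hM c; positivity)
    linarith
  have h3 := (abs_le.1 hmain).1
  have h4 := hx₀ K hxx
  linarith

/-- the odd primes grow polynomially -/
lemma odd_primes : StrictMono (fun k => Nat.nth Nat.Prime (k + 1)) ∧
    ∀ k, (Nat.nth Nat.Prime (k + 1)).Prime ∧ Nat.nth Nat.Prime (k + 1) ≤ (k + 2) ^ 4 := by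
  constructor
  · intro a b h
    exact Nat.nth_strictMono Nat.infinite_setOfPred_prime (by omega)
  · intro k
    refine ⟨Nat.prime_nth_prime _, ?_⟩
    have h := Pool.Agent.TH869.SQ.qs_le 1 le_rfl (k + 1)
    unfold Pool.Agent.TH869.SQ.qs Pool.Agent.TH869.SQ.pr at h
    simp at h
    have h3 : 4 ≤ (k + 2) ^ 2 := by
      calc 4 = 2 ^ 2 := by norm_num
        _ ≤ (k + 2) ^ 2 := Nat.pow_le_pow_left (by omega) 2
    have h4 : (k + 1 + 1) ^ 2 = (k + 2) ^ 2 := by ring
    calc Nat.nth Nat.Prime (k + 1) ≤ 4 * (k + 1 + 1) ^ 2 := by exact_mod_cast h.2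
      _ ≤ (k + 2) ^ 2 * (k + 2) ^ 2 := by rw [h4]; exact Nat.mul_le_mul_right _ h3
      _ = (k + 2) ^ 4 := by ring

end Pool.Agent.X35.OR
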