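import Pool.Agent.X35.OR.Box
import Pool.Agent.X35.OR.ConsecD
import Pool.Agent.X35.OR.Sup

/-! Conditions on the single coordinates of vectors of residues. -/

set_option autoImplicit false

namespace Pool.Agent.X35.OR
open Finset Pool.Agent.X35.GV

open Classical in
lemma prob_coord (p r : ℕ) (hp : 1 ≤ p) (T : Fin r → ℤ → Prop) (x : Fin r → ℝ) (ε : ℝ) (hε : 0 ≤ ε) (hx : ∀ j, 0 ≤ x j ∧ x j ≤ 1)
    (h : ∀ j, x j * p - ε ≤ (((range p).filter (fun m : ℕ => T j (m : ℤ))).card : ℝ)) :
    Prob r p (fun m => ¬ ∀ j, T j (m j)) ≤ 1 - ∏ j, x j + r * ε / p := by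
  have hp0 : (0 : ℝ) < p := by exact_mod_cast hp
  unfold Prob
  have h7 : (Fintype.piFinset (fun _ : Fin r => range p)).filter (fun m => ∀ j, T j ((m j : ℕ) : ℤ)) =
      Fintype.piFinset (fun j => (range p).filter (fun m : ℕ => T j (m : ℤ))) := by
    ext m
    rw [mem_filter, Fintype.mem_piFinset, Fintype.mem_piFinset]
    simp only [mem_filter]
    constructor
    · intro h j
      exact ⟨h.1 j, h.2 j⟩
    · intro h
      exact ⟨fun j => (h j).1, fun j => (h j).2⟩
  have h8 := card_filter_add_card_filter_not (s := Fintype.piFinset (fun _ : Fin r => range p)) (p := fun m => ∀ j, T j ((m j : ℕ) : ℤ))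
  rw [h7, Fintype.card_piFinset, Fintype.card_piFinset_const, card_range] at h8
  have h9 := prod_sub_le x (fun j => (((range p).filter (fun m : ℕ => T j (m : ℤ))).card : ℝ) / p) (ε / p) (by positivity) hx
    (fun j => ⟨by positivity, by
      rw [div_le_one hp0]
      have := card_filter_le (range p) (fun m : ℕ => T j (m : ℤ))
      rw [card_range] at this
      exact_mod_cast this⟩) (fun j => by
      rw [le_div_iff₀ hp0, sub_mul, div_mul_cancel₀ _ hp0.ne']
      exact h j)
  rw [prod_div_distrib, prod_const, card_univ, Fintype.card_fin] at h9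
  have h10 : (∏ j : Fin r, (((range p).filter (fun m : ℕ => T j (m : ℤ))).card : ℝ)) +
      (((Fintype.piFinset (fun _ : Fin r => range p)).filter (fun m => ¬ ∀ j, T j ((m j : ℕ) : ℤ))).card : ℝ) = (p : ℝ) ^ r := by
    exact_mod_cast h8
  have hpr : (0 : ℝ) < (p : ℝ) ^ r := pow_pos hp0 r
  have h12 : (((Fintype.piFinset (fun _ : Fin r => range p)).filter (fun m => ¬ ∀ j, T j ((m j : ℕ) : ℤ))).card : ℝ) / (p : ℝ) ^ r ≤
      1 - ∏ j, x j + r * ε / p := by
    rw [div_le_iff₀ hpr]
    have h13 : (∏ j, x j - r * (ε / p)) * (p : ℝ) ^ r ≤ ∏ j : Fin r, (((range p).filter (fun m : ℕ => T j (m : ℤ))).card : ℝ) := by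
      rwa [le_div_iff₀ hpr] at h9
    have e : r * ε / (p : ℝ) = r * (ε / p) := by ring
    rw [e]
    nlinarith
  refine le_trans (le_of_eq ?_) h12
  congr!

end Pool.Agent.X35.OR
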