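import Pool.Agent.X35.GV.CenteredU
import Pool.Agent.X35.GV.Win

/-! Lower bounds for the number of primes with a property near sequences and in boxes. -/

set_option autoImplicit false

namespace Pool.Agent.X35.OR
open Finset Pool.Agent.X35.GV

lemma sum_inv (x : ℕ) (hx : 1 ≤ x) (S : Finset ℕ) (hS : ∀ p ∈ S, 1 ≤ p ∧ p ≤ x) : ∑ p ∈ S, (1 : ℝ) / p ≤ 1 + Real.log x := by
  have h1 : ∑ p ∈ S, (1 : ℝ) / p ≤ ∑ p ∈ Icc 1 x, (1 : ℝ) / p := by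
    apply sum_le_sum_of_subset_of_nonneg
    · intro p hp
      exact mem_Icc.2 (hS p hp)
    · intro p _ _
      positivity
  refine h1.trans ?_
  have h2 := harmonic_le_one_add_log x
  refine le_trans (le_of_eq ?_) h2
  rw [harmonic_eq_sum_Icc]
  push_cast
  exact sum_congr rfl fun i _ => by rw [one_div]

lemma abs_bound (δ η K : ℝ) (hη0 : 0 ≤ η) (hK : 0 ≤ K) (x : ℕ) (hx : 2 ≤ x) (S : Finset ℕ) (hS : ∀ p ∈ S, p.Prime ∧ p ≤ x)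
    (pr : ℕ → ℝ) (hpr : ∀ p ∈ S, pr p ≤ 1 ∧ pr p ≤ η + K / p) (b g : ℕ) (hbg : b + g = S.card)
    (h : |(b : ℝ) - ∑ p ∈ S, pr p| ≤ √(max 1 (∑ p ∈ S, pr p)) * (x : ℝ) ^ (δ / 2))
    (habs : (K * (1 + Real.log x)) + √(x : ℝ) * (x : ℝ) ^ (δ / 2) ≤ (x : ℝ) ^ (1 / 2 + δ)) :
    (1 - η) * (S.card : ℝ) - (x : ℝ) ^ (1 / 2 + δ) ≤ g := by
  have hxr : (2 : ℝ) ≤ x := by exact_mod_cast hx
  have hcard : (S.card : ℝ) ≤ x := by
    have h1 : S ⊆ Icc 1 x := fun p hp => mem_Icc.2 ⟨(hS p hp).1.one_lt.le, (hS p hp).2⟩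
    have h2 := card_le_card h1
    rw [Nat.card_Icc, Nat.add_sub_cancel] at h2
    exact_mod_cast h2
  have h1 : ∑ p ∈ S, pr p ≤ η * S.card + K * (1 + Real.log x) := by
    calc ∑ p ∈ S, pr p ≤ ∑ p ∈ S, (η + K * (1 / p)) := sum_le_sum fun p hp => by
          have := (hpr p hp).2
          rw [mul_one_div]
          exact this
      _ = η * S.card + K * ∑ p ∈ S, (1 : ℝ) / p := by
          rw [sum_add_distrib, sum_const, nsmul_eq_mul, ← mul_sum, mul_comm]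
      _ ≤ _ := by
          have := sum_inv x (by omega) S (fun p hp => ⟨(hS p hp).1.one_lt.le, (hS p hp).2⟩)
          gcongr
  have h2 : ∑ p ∈ S, pr p ≤ x := by
    calc ∑ p ∈ S, pr p ≤ ∑ p ∈ S, (1 : ℝ) := sum_le_sum fun p hp => (hpr p hp).1
      _ = S.card := by rw [sum_const, nsmul_eq_mul, mul_one]
      _ ≤ x := hcard
  have h3 : √(max 1 (∑ p ∈ S, pr p)) ≤ √(x : ℝ) := Real.sqrt_le_sqrt (max_le (by linarith) h2)
  have h4 : √(max 1 (∑ p ∈ S, pr p)) * (x : ℝ) ^ (δ / 2) ≤ √(x : ℝ) * (x : ℝ) ^ (δ / 2) :=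
    mul_le_mul_of_nonneg_right h3 (by positivity)
  have h5 := (abs_le.1 (h.trans h4)).2
  have h6 : ((b : ℝ) + g) = S.card := by exact_mod_cast hbg
  nlinarith

lemma absorb2 (δ K : ℝ) (hδ : 0 < δ) (hK : 0 ≤ K) : ∃ x₀ : ℝ, ∀ x : ℝ, x₀ ≤ x →
    (K * (1 + Real.log x)) + √x * x ^ (δ / 2) ≤ x ^ (1 / 2 + δ) := by
  have h1 := (isLittleO_log_rpow_atTop (show (0 : ℝ) < 1 / 2 by norm_num)).bound (show (0 : ℝ) < 1 by norm_num)
  have h2 : Filter.Tendsto (fun x : ℝ => x ^ (δ / 2)) Filter.atTop Filter.atTop := tendsto_rpow_atTop (by positivity)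
  have h3 := h2.eventually_ge_atTop (2 * K + 1 : ℝ)
  obtain ⟨x₀, hx₀⟩ := Filter.eventually_atTop.1 (h1.and (h3.and (Filter.eventually_ge_atTop (1 : ℝ))))
  refine ⟨x₀, fun x hx => ?_⟩
  obtain ⟨h4, h5, h6⟩ := hx₀ x hx
  have hx0 : 0 < x := by linarith
  rw [one_mul, Real.norm_eq_abs, Real.norm_eq_abs, abs_of_nonneg (Real.log_nonneg h6), abs_of_pos (Real.rpow_pos_of_pos hx0 _)] at h4
  have h7 : 1 ≤ x ^ (1 / 2 : ℝ) := Real.one_le_rpow h6 (by norm_num)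
  have h8 : 1 ≤ x ^ (δ / 2) := Real.one_le_rpow h6 (by positivity)
  have e : x ^ (1 / 2 + δ) = x ^ (1 / 2 : ℝ) * (x ^ (δ / 2) * x ^ (δ / 2)) := by
    rw [← Real.rpow_add hx0 (δ / 2) (δ / 2), ← Real.rpow_add hx0, add_halves]
  rw [Real.sqrt_eq_rpow, e]
  have h9 : K * (1 + Real.log x) ≤ x ^ (1 / 2 : ℝ) * (2 * K) := by nlinarith
  calc K * (1 + Real.log x) + x ^ (1 / 2 : ℝ) * x ^ (δ / 2)
      ≤ x ^ (1 / 2 : ℝ) * (2 * K) + x ^ (1 / 2 : ℝ) * x ^ (δ / 2) := by linarith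
    _ ≤ x ^ (1 / 2 : ℝ) * (2 * K) * x ^ (δ / 2) + x ^ (1 / 2 : ℝ) * x ^ (δ / 2) := by
        have : 0 ≤ x ^ (1 / 2 : ℝ) * (2 * K) := by positivity
        nlinarith
    _ = x ^ (1 / 2 : ℝ) * ((2 * K + 1) * x ^ (δ / 2)) := by ring
    _ ≤ x ^ (1 / 2 : ℝ) * (x ^ (δ / 2) * x ^ (δ / 2)) := by gcongr

open Classical in
/-- the odd primes up to `x` in the set `P` with the property `R` -/
noncomputable def sel (x : ℕ) (P : Set ℕ) (R : ℕ → Prop) : Finset ℕ :=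
  (range (x + 1)).filter (fun p => p.Prime ∧ p ≠ 2 ∧ p ∈ P ∧ R p)

open Classical in
lemma mem_sel {x : ℕ} {P : Set ℕ} {R : ℕ → Prop} {p : ℕ} : p ∈ sel x P R ↔ p ≤ x ∧ p.Prime ∧ p ≠ 2 ∧ p ∈ P ∧ R p := by
  unfold sel
  rw [mem_filter, mem_range, Nat.lt_succ_iff]

open Classical in
lemma sel_split (x : ℕ) (P : Set ℕ) (R T : ℕ → Prop) :
    (sel x P (fun p => R p ∧ T p)).card + (sel x P (fun p => R p ∧ ¬ T p)).card = (sel x P R).card := by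
  classical
  rw [← card_filter_add_card_filter_not (s := sel x P R) (p := fun p => T p)]
  congr 2
  · ext p
    rw [mem_filter, mem_sel, mem_sel]
    tauto
  · ext p
    rw [mem_filter, mem_sel, mem_sel]
    tauto

open Classical in
/-- **near sequences** -/
theorem dens_seq (δ A : ℝ) (hδ : 0 < δ) : ∃ κ C : ℝ, 0 < κ ∧ 0 < C ∧
    ∀ (v : ℕ → ℝ) (τ θ : ℝ), (∀ i, 1 ≤ v i) → 0 ≤ τ → θ < 1 → (∀ t : ℝ, τ < t → Summable (fun i => v i ^ (-t))) →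
    ∀ (H : ℕ → Finset (Set ℕ)), (∀ x, 2 ≤ x → ((H x).card : ℝ) ≤ (x : ℝ) ^ A) →
    ∀ (Γ : Type) [Countable Γ] (R : Γ → ℕ → Prop) (T : Γ → ℕ → ℤ → Prop) (η K : Γ → ℝ), (∀ c, 0 ≤ η c ∧ 0 ≤ K c) →
    (∀ c, ∀ p : ℕ, p.Prime → p ≠ 2 → R c p → ∀ m m' : ℤ, m ≡ m' [ZMOD (p : ℕ)] → (T c p m ↔ T c p m')) →
    (∀ c, ∀ p : ℕ, p.Prime → p ≠ 2 → R c p → (((range p).filter (fun m : ℕ => T c p m)).card : ℝ) ≤ η c * p + K c) →
    ∃ E : Set ℝ, dimH E ≤ ENNReal.ofReal ((1 - κ + τ) / (1 - θ)) ∧ ∀ α : ℝ, 0 < α → α ∉ E → ∀ c : Γ, ∃ i₀ : ℕ,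
      ∀ i : ℕ, i₀ ≤ i → ∀ n : ℤ, |(|(n : ℝ)|) - α * v i| ≤ v i ^ θ →
        ∀ x : ℕ, Real.log |(n : ℝ)| ^ C ≤ x → (x : ℝ) ≤ |(n : ℝ)| ^ κ → ∀ P ∈ H x,
          (1 - η c) * ((sel x P (R c)).card : ℝ) - (x : ℝ) ^ (1 / 2 + δ) ≤ ((sel x P (fun p => R c p ∧ ¬ T c p n)).card : ℝ) := by
  obtain ⟨κ, hκ, hκ1, HH⟩ := lawWin (δ / 2) A 1 (by positivity) le_rfl
  refine ⟨κ, 2 / (δ / 2), hκ, by positivity, fun v τ θ hv1 hτ hθ hv H hH Γ _ R T η K hηK hper hb => ?_⟩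
  obtain ⟨E, hE1, hE2⟩ := HH v τ θ hv1 hτ hθ hv Γ (Set ℕ) (fun _ x => H x) (fun _ x hx => hH x hx) ℕ
    (fun c x P => sel x P (R c)) (fun _ _ p => p)
    (by
      intro c x l _ p hp
      rw [mem_sel] at hp
      exact ⟨hp.2.1.two_le, by rw [pow_one]; exact hp.1⟩)
    (by
      intro c x l _ p hp p' hp' hne
      rw [mem_sel] at hp hp'
      exact (Nat.coprime_primes hp.2.1 hp'.2.1).2 hne)
    (fun c _ p n => T c p n)
    (by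
      intro c x l _ p hp m m' h
      rw [mem_sel] at hp
      exact hper c p hp.2.1 hp.2.2.1 hp.2.2.2.2 m m' h)
  refine ⟨E, hE1, fun α hα hαE c => ?_⟩
  obtain ⟨i₁, hi₁⟩ := hE2 α hα hαE c
  obtain ⟨x₀, hx₀⟩ := absorb2 δ (K c) hδ (hηK c).2
  obtain ⟨i₂, hi₂⟩ := log_large hv1 hτ hθ hv α hα (max x₀ 3) (2 / (δ / 2)) (by positivity)
  refine ⟨max i₁ i₂, fun i hi n hn x hx1 hx2 P hP => ?_⟩
  have hlarge := hi₂ i (le_trans (le_max_right _ _) hi) n hn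
  have hxx : x₀ ≤ x := ((le_max_left _ _).trans hlarge).trans hx1
  have hx3 : (3 : ℝ) ≤ x := ((le_max_right _ _).trans hlarge).trans hx1
  have hx2' : 2 ≤ x := by
    have : (2 : ℝ) ≤ x := by linarith
    exact_mod_cast this
  have hmain := hi₁ i (le_trans (le_max_left _ _) hi) n hn x hx1 hx2 P hP
  refine abs_bound δ (η c) (K c) (hηK c).1 (hηK c).2 x hx2' (sel x P (R c)) (fun p hp => ⟨(mem_sel.1 hp).2.1, (mem_sel.1 hp).1⟩)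
    (fun p => prob p (T c p)) (fun p hp => ?_) ((sel x P (fun p => R c p ∧ T c p n)).card) _ (sel_split x P (R c) (fun p => T c p n)) ?_ (hx₀ x hxx)
  · rw [mem_sel] at hp
    have hp0 : (0 : ℝ) < p := by exact_mod_cast hp.2.1.pos
    constructor
    · unfold prob
      rw [div_le_one hp0]
      have := card_filter_le (range p) (fun n : ℕ => T c p n)
      rw [card_range] at this
      exact_mod_cast this
    · have h1 := hb c p hp.2.1 hp.2.2.1 hp.2.2.2.2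
      unfold prob
      rw [div_le_iff₀ hp0, add_mul, div_mul_cancel₀ _ hp0.ne']
      exact h1
  · have e : (sel x P (fun p => R c p ∧ T c p n)) = (sel x P (R c)).filter (fun p => T c p n) := by
      ext p
      rw [mem_filter, mem_sel, mem_sel]
      tauto
    rw [e]
    exact hmain

open Classical in
/-- **boxes** -/
theorem dens_box (d : ℕ) (δ A η K : ℝ) (hδ : 0 < δ) (hη : 0 ≤ η) (hK : 0 ≤ K) : ∃ κ C : ℝ, 0 < κ ∧ 0 < C ∧ ∃ N₀ : ℕ, ∀ N : ℕ, N₀ ≤ N →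
    ∀ (Γ : Type) (H : ℕ → Finset (Γ × Set ℕ)), (∀ x, 2 ≤ x → ((H x).card : ℝ) ≤ (x : ℝ) ^ A) →
    ∀ (R : Γ → ℕ → Prop) (T : Γ → ℕ → (Fin d → ℤ) → Prop),
    (∀ x, ∀ c ∈ H x, ∀ p : ℕ, p.Prime → p ≠ 2 → R c.1 p → PerZ p (T c.1 p)) →
    (∀ x, ∀ c ∈ H x, ∀ p : ℕ, p.Prime → p ≠ 2 → R c.1 p → Prob d p (T c.1 p) ≤ η + K / p) →
    ∀ (M : Fin d → ℤ) (L : Fin d → ℕ), (∀ i, N ≤ L i) →
      ({m : Fin d → ℤ | (∀ i, M i ≤ m i ∧ m i < M i + L i) ∧ ¬ ∀ x : ℕ, Real.log N ^ C ≤ x → (x : ℝ) ≤ (N : ℝ) ^ κ → ∀ c ∈ H x,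
        (1 - η) * ((sel x c.2 (R c.1)).card : ℝ) - (x : ℝ) ^ (1 / 2 + δ) ≤ ((sel x c.2 (fun p => R c.1 p ∧ ¬ T c.1 p m)).card : ℝ)}.ncard : ℝ) ≤
      (N : ℝ) ^ (-κ) * ∏ i, (L i : ℝ) := by
  obtain ⟨κ, hκ, hκ1, N₀, HH⟩ := law d (δ / 2) A 1 (by positivity) le_rfl
  obtain ⟨x₀, hx₀⟩ := absorb2 δ K hδ hK
  obtain ⟨N₁, hN₁⟩ : ∃ N₁ : ℕ, ∀ N : ℕ, N₁ ≤ N → max x₀ 3 ≤ Real.log N ^ (2 / (δ / 2)) := by
    have h1 : Filter.Tendsto (fun N : ℕ => Real.log (N : ℝ) ^ (2 / (δ / 2))) Filter.atTop Filter.atTop :=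
      (tendsto_rpow_atTop (by positivity)).comp (Real.tendsto_log_atTop.comp tendsto_natCast_atTop_atTop)
    exact Filter.eventually_atTop.1 (h1.eventually_ge_atTop _)
  refine ⟨κ, 2 / (δ / 2), hκ, by positivity, max N₀ N₁, fun N hN Γ H hH R T hper hb M L hL => ?_⟩
  obtain ⟨Ex, hEx⟩ : ∃ Ex : Finset (Fin d → ℤ), Ex = (Fintype.piFinset (fun i => Ico (M i) (M i + L i))).filter
      (fun m => ¬ ∀ x : ℕ, Real.log N ^ (2 / (δ / 2)) ≤ x → (x : ℝ) ≤ (N : ℝ) ^ κ → ∀ c ∈ H x,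
        (1 - η) * ((sel x c.2 (R c.1)).card : ℝ) - (x : ℝ) ^ (1 / 2 + δ) ≤ ((sel x c.2 (fun p => R c.1 p ∧ ¬ T c.1 p m)).card : ℝ)) := ⟨_, rfl⟩
  have hset : {m : Fin d → ℤ | (∀ i, M i ≤ m i ∧ m i < M i + L i) ∧ ¬ ∀ x : ℕ, Real.log N ^ (2 / (δ / 2)) ≤ x → (x : ℝ) ≤ (N : ℝ) ^ κ → ∀ c ∈ H x,
        (1 - η) * ((sel x c.2 (R c.1)).card : ℝ) - (x : ℝ) ^ (1 / 2 + δ) ≤ ((sel x c.2 (fun p => R c.1 p ∧ ¬ T c.1 p m)).card : ℝ)} = (Ex : Set (Fin d → ℤ)) := by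
    ext m
    rw [hEx, mem_coe, mem_filter, Fintype.mem_piFinset]
    simp only [mem_Ico]
    rfl
  rw [hset, Set.ncard_coe_finset]
  refine HH N (le_trans (le_max_left _ _) hN) (Γ × Set ℕ) H hH ℕ (fun x c => sel x c.2 (R c.1)) (fun _ p => p) ?_ ?_ (fun c p m => T c.1 p m) ?_ M L hL Ex ?_ ?_
  · intro x l _ p hp
    rw [mem_sel] at hp
    exact ⟨hp.2.1.two_le, by rw [pow_one]; exact hp.1⟩
  · intro x l _ p hp p' hp' hne
    rw [mem_sel] at hp hp'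
    exact (Nat.coprime_primes hp.2.1 hp'.2.1).2 hne
  · intro x l hl p hp
    rw [mem_sel] at hp
    exact hper x l hl p hp.2.1 hp.2.2.1 hp.2.2.2.2
  · intro m hm i
    rw [hEx, mem_filter, Fintype.mem_piFinset] at hm
    exact mem_Ico.1 (hm.1 i)
  · intro m hm
    rw [hEx, mem_filter] at hm
    obtain ⟨-, hm⟩ := hm
    push Not at hm
    obtain ⟨x, hx1, hx2, c, hc, hbig⟩ := hm
    refine ⟨x, hx1, hx2, c, hc, ?_⟩
    by_contra hcon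
    push Not at hcon
    have hlarge := hN₁ N (le_trans (le_max_right _ _) hN)
    have hxx : x₀ ≤ x := ((le_max_left _ _).trans hlarge).trans hx1
    have hx3 : (3 : ℝ) ≤ x := ((le_max_right _ _).trans hlarge).trans hx1
    have hx2' : 2 ≤ x := by
      have : (2 : ℝ) ≤ x := by linarith
      exact_mod_cast this
    refine absurd hbig (not_lt.2 ?_)
    refine abs_bound δ η K hη hK x hx2' (sel x c.2 (R c.1)) (fun p hp => ⟨(mem_sel.1 hp).2.1, (mem_sel.1 hp).1⟩)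
      (fun p => Prob d p (T c.1 p)) (fun p hp => ?_) ((sel x c.2 (fun p => R c.1 p ∧ T c.1 p m)).card) _ (sel_split x c.2 (R c.1) (fun p => T c.1 p m)) ?_ (hx₀ x hxx)
    · rw [mem_sel] at hp
      exact ⟨Prob_le_one _ _ _, hb x c hc p hp.2.1 hp.2.2.1 hp.2.2.2.2⟩
    · have e : (sel x c.2 (fun p => R c.1 p ∧ T c.1 p m)) = (sel x c.2 (R c.1)).filter (fun p => T c.1 p m) := by
        ext p
        rw [mem_filter, mem_sel, mem_sel]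
        tauto
      rw [e]
      exact hcon

end Pool.Agent.X35.OR
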