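import Pool.Agent.X35.GV.CenteredU
import Pool.Agent.X35.OR.Dens
import Pool.Agent.TH869.SQ.Mo

/-! Products of functions at `s` consecutive terms of sequences of primes, near sequences. -/

set_option autoImplicit false

namespace Pool.Agent.X35.OR
open Finset Pool.Agent.X35.GV

/-- the product of `s` consecutive terms -/
def qq (s : ℕ) (q : ℕ → ℕ) (k : ℕ) : ℕ := ∏ j : Fin s, q (k + j)

/-- the index sets -/
def idx (s x r : ℕ) : Finset ℕ := if 2 ≤ x then (range x).filter (fun k => k % s = r) else ∅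

lemma mem_idx {s x r k : ℕ} : k ∈ idx s x r ↔ 2 ≤ x ∧ k < x ∧ k % s = r := by
  unfold idx
  split_ifs with h
  · rw [mem_filter, mem_range]
    tauto
  · simp [h]

lemma qq_le (s B : ℕ) (hs : 1 ≤ s) (q : ℕ → ℕ) (hq : ∀ k, (q k).Prime ∧ q k ≤ (k + 2) ^ B) (x k : ℕ) (hx : 2 ≤ x) (hk : k < x) :
    2 ≤ qq s q k ∧ qq s q k ≤ x ^ ((s + 3) * B * s) := by
  constructor
  · have h0 : (⟨0, by omega⟩ : Fin s) ∈ (univ : Finset (Fin s)) := mem_univ _
    have h1 : q (k + 0) ∣ qq s q k := Finset.dvd_prod_of_mem (fun j : Fin s => q (k + j)) h0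
    have h2 : 0 < qq s q k := prod_pos fun j _ => (hq _).1.pos
    exact (hq (k + 0)).1.two_le.trans (Nat.le_of_dvd h2 h1)
  · unfold qq
    have h1 : ∀ j : Fin s, q (k + j) ≤ x ^ ((s + 3) * B) := by
      intro j
      refine (hq _).2.trans ?_
      rw [pow_mul]
      apply Nat.pow_le_pow_left
      have hj := j.2
      have h3 : s + 2 ≤ x ^ (s + 2) := by
        have h4 : s + 2 < 2 ^ (s + 2) := Nat.lt_two_pow_self
        exact h4.le.trans (Nat.pow_le_pow_left hx _)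
      calc k + j + 2 ≤ x * (s + 2) := by nlinarith
        _ ≤ x * x ^ (s + 2) := Nat.mul_le_mul_left _ h3
        _ = x ^ (s + 3) := by rw [← pow_succ']
    calc ∏ j : Fin s, q (k + j) ≤ ∏ _j : Fin s, x ^ ((s + 3) * B) := prod_le_prod' fun j _ => h1 j
      _ = x ^ ((s + 3) * B * s) := by rw [prod_const, card_univ, Fintype.card_fin, ← pow_mul]

lemma qq_coprime (s : ℕ) (hs : 1 ≤ s) (q : ℕ → ℕ) (hmono : StrictMono q) (hq : ∀ k, (q k).Prime) (k k' : ℕ) (h : k % s = k' % s) (hne : k ≠ k') :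
    Nat.Coprime (qq s q k) (qq s q k') := by
  unfold qq
  apply Nat.Coprime.prod_left
  intro i _
  apply Nat.Coprime.prod_right
  intro j _
  rw [Nat.coprime_primes (hq _) (hq _)]
  intro he
  have h1 := hmono.injective he
  have hi := i.2
  have hj := j.2
  have h2 := Nat.div_add_mod k s
  have h3 := Nat.div_add_mod k' s
  rcases Nat.lt_trichotomy (k / s) (k' / s) with h4 | h4 | h4
  · have : s * (k / s + 1) ≤ s * (k' / s) := Nat.mul_le_mul_left _ h4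
    rw [mul_add, mul_one] at this
    omega
  · rw [h4] at h2
    omega
  · have : s * (k' / s + 1) ≤ s * (k / s) := Nat.mul_le_mul_left _ h4
    rw [mul_add, mul_one] at this
    omega

lemma avg_prod (s : ℕ) (q : ℕ → ℕ) (hmono : StrictMono q) (hq : ∀ k, (q k).Prime) (k : ℕ) (a : Fin s → ℤ → ℝ)
    (hper : ∀ j : Fin s, ∀ m m' : ℤ, m ≡ m' [ZMOD (q (k + j) : ℕ)] → a j m = a j m') :
    avg (qq s q k) (fun n => ∏ j, a j n) = ∏ j : Fin s, avg (q (k + j)) (a j) := by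
  have h := (Pool.Agent.TH869.SQ.sum_prod_per (fun j : Fin s => q (k + j)) (fun j (t : ℕ) => a j (t : ℤ)) univ
    (fun j _ => (hq _).pos) (by
      intro i _ j _ hij
      rw [Nat.coprime_primes (hq _) (hq _)]
      intro he
      apply hij
      have := hmono.injective he
      ext
      omega) (by
      intro j _ n
      refine hper j _ _ ?_
      push_cast
      simp [Int.ModEq])).2
  unfold avg qq
  rw [h, prod_div_distrib]
  push_cast
  rfl

/-- the centered product -/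
noncomputable def cp {s : ℕ} (D : ℝ) (q : ℕ → ℕ) (a : Fin s → ℕ → ℤ → ℝ) (k : ℕ) (n : ℤ) : ℝ :=
  (∏ j, a j (q (k + j)) n - ∏ j : Fin s, avg (q (k + j)) (a j (q (k + j)))) / (2 * D ^ s)

lemma avg_le (p : ℕ) (hp : 0 < p) (F : ℤ → ℝ) (D : ℝ) (h : ∀ n, |F n| ≤ D) : |avg p F| ≤ D := by
  have hp0 : (0 : ℝ) < p := by exact_mod_cast hp
  unfold avg
  rw [abs_div, abs_of_pos hp0, div_le_iff₀ hp0]
  calc |∑ n ∈ range p, F (n : ℤ)| ≤ ∑ n ∈ range p, |F (n : ℤ)| := abs_sum_le_sum_abs _ _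
    _ ≤ ∑ _n ∈ range p, D := sum_le_sum fun n _ => h _
    _ = D * p := by rw [sum_const, card_range, nsmul_eq_mul, mul_comm]

lemma cp_abs {s : ℕ} (D : ℝ) (hD : 1 ≤ D) (q : ℕ → ℕ) (hq : ∀ k, (q k).Prime) (a : Fin s → ℕ → ℤ → ℝ) (k : ℕ)
    (hb : ∀ j k n, |a j (q k) n| ≤ D) (n : ℤ) : |cp D q a k n| ≤ 1 := by
  have hD0 : 0 < 2 * D ^ s := by positivity
  unfold cp
  rw [abs_div, abs_of_pos hD0, div_le_one hD0]
  have h1 : |∏ j, a j (q (k + j)) n| ≤ D ^ s := by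
    rw [abs_prod]
    calc ∏ j : Fin s, |a j (q (k + j)) n| ≤ ∏ _j : Fin s, D := prod_le_prod (fun j _ => abs_nonneg _) fun j _ => hb _ _ _
      _ = D ^ s := by rw [prod_const, card_univ, Fintype.card_fin]
  have h2 : |∏ j : Fin s, avg (q (k + j)) (a j (q (k + j)))| ≤ D ^ s := by
    rw [abs_prod]
    calc ∏ j : Fin s, |avg (q (k + j)) (a j (q (k + j)))| ≤ ∏ _j : Fin s, D :=
          prod_le_prod (fun j _ => abs_nonneg _) fun j _ => avg_le _ (hq _).pos _ D (hb _ _)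
      _ = D ^ s := by rw [prod_const, card_univ, Fintype.card_fin]
  have h3 := abs_sub (∏ j, a j (q (k + j)) n) (∏ j : Fin s, avg (q (k + j)) (a j (q (k + j))))
  linarith [abs_add_le (∏ j, a j (q (k + j)) n) (-∏ j : Fin s, avg (q (k + j)) (a j (q (k + j)))),
    abs_neg (∏ j : Fin s, avg (q (k + j)) (a j (q (k + j)))), sub_eq_add_neg (∏ j, a j (q (k + j)) n) (∏ j : Fin s, avg (q (k + j)) (a j (q (k + j))))]

lemma avg_lin (p : ℕ) (hp : 0 < p) (F : ℤ → ℝ) (c d : ℝ) : avg p (fun n => (F n - c) / d) = (avg p F - c) / d := by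
  have hp0 : (p : ℝ) ≠ 0 := by exact_mod_cast hp.ne'
  unfold avg
  rw [← sum_div, sum_sub_distrib, sum_const, card_range, nsmul_eq_mul]
  field_simp

lemma sum_split (s K : ℕ) (hs : 1 ≤ s) (hK : 2 ≤ K) (f : ℕ → ℝ) : ∑ k ∈ range K, f k = ∑ r ∈ range s, ∑ k ∈ idx s K r, f k := by
  have h1 : ∀ r ∈ range s, ∑ k ∈ idx s K r, f k = ∑ k ∈ (range K).filter (fun k => k % s = r), f k := by
    intro r _
    apply sum_congr _ (fun _ _ => rfl)
    ext k
    rw [mem_idx, mem_filter, mem_range]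
    tauto
  rw [sum_congr rfl h1]
  exact (sum_fiberwise_of_maps_to (fun k _ => mem_range.2 (Nat.mod_lt k (by omega))) f).symm

lemma absorb3 (δ T : ℝ) (hδ : 0 < δ) (hT : 0 ≤ T) : ∃ x₀ : ℝ, ∀ x : ℝ, x₀ ≤ x → T * (√(1 + x) * x ^ (δ / 4)) ≤ x ^ (1 / 2 + δ) / 2 := by
  have h2 : Filter.Tendsto (fun x : ℝ => x ^ (δ / 4)) Filter.atTop Filter.atTop := tendsto_rpow_atTop (by positivity)
  have h3 := h2.eventually_ge_atTop (4 * T)
  obtain ⟨x₀, hx₀⟩ := Filter.eventually_atTop.1 (h3.and (Filter.eventually_ge_atTop (1 : ℝ)))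
  refine ⟨x₀, fun x hx => ?_⟩
  obtain ⟨h5, h6⟩ := hx₀ x hx
  have hx0 : 0 < x := by linarith
  have h7 : √(1 + x) ≤ 2 * √x := by
    rw [show (2 : ℝ) * √x = √(4 * x) by
      rw [Real.sqrt_mul (by norm_num), show (4 : ℝ) = 2 ^ 2 by norm_num, Real.sqrt_sq (by norm_num)]]
    exact Real.sqrt_le_sqrt (by linarith)
  have h8 : 1 ≤ x ^ (δ / 4) := Real.one_le_rpow h6 (by positivity)
  have e : x ^ (1 / 2 + δ) = √x * (x ^ (δ / 4) * x ^ (δ / 4) * (x ^ (δ / 4) * x ^ (δ / 4))) := by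
    rw [Real.sqrt_eq_rpow, ← Real.rpow_add hx0, ← Real.rpow_add hx0, ← Real.rpow_add hx0]
    congr 1
    ring
  rw [e]
  have h9 : 0 ≤ √x := Real.sqrt_nonneg x
  have h10 : x ^ (δ / 4) * x ^ (δ / 4) ≤ x ^ (δ / 4) * x ^ (δ / 4) * (x ^ (δ / 4) * x ^ (δ / 4)) := by
    have : 1 ≤ x ^ (δ / 4) * x ^ (δ / 4) := by nlinarith
    nlinarith
  calc T * (√(1 + x) * x ^ (δ / 4)) ≤ T * (2 * √x * x ^ (δ / 4)) := by gcongr
    _ = √x * (4 * T * x ^ (δ / 4)) / 2 := by ring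
    _ ≤ √x * (x ^ (δ / 4) * x ^ (δ / 4)) / 2 := by gcongr
    _ ≤ _ := by gcongr

/-- **consecutive terms of sequences of primes, near sequences** -/
theorem consec (s B : ℕ) (hs : 1 ≤ s) (hB : 1 ≤ B) (δ : ℝ) (hδ : 0 < δ) : ∃ κ C : ℝ, 0 < κ ∧ 0 < C ∧
    ∀ (v : ℕ → ℝ) (τ θ : ℝ), (∀ i, 1 ≤ v i) → 0 ≤ τ → θ < 1 → (∀ t : ℝ, τ < t → Summable (fun i => v i ^ (-t))) →
    ∀ (Γ : Type) [Countable Γ] (q : Γ → ℕ → ℕ), (∀ c, StrictMono (q c) ∧ ∀ k, (q c k).Prime ∧ q c k ≤ (k + 2) ^ B) →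
    ∀ (a : Γ → Fin s → ℕ → ℤ → ℝ) (D : Γ → ℝ), (∀ c, 1 ≤ D c) →
    (∀ c j k, ∀ m m' : ℤ, m ≡ m' [ZMOD (q c k : ℕ)] → a c j (q c k) m = a c j (q c k) m') →
    (∀ c j k n, |a c j (q c k) n| ≤ D c) →
    ∃ E : Set ℝ, dimH E ≤ ENNReal.ofReal ((1 - κ + τ) / (1 - θ)) ∧ ∀ α : ℝ, 0 < α → α ∉ E → ∀ c : Γ, ∃ i₀ : ℕ,
      ∀ i : ℕ, i₀ ≤ i → ∀ n : ℤ, |(|(n : ℝ)|) - α * v i| ≤ v i ^ θ →
        ∀ K : ℕ, Real.log |(n : ℝ)| ^ C ≤ K → (K : ℝ) ≤ |(n : ℝ)| ^ κ →
          |∑ k ∈ range K, (∏ j : Fin s, a c j (q c (k + j)) n - ∏ j : Fin s, avg (q c (k + j)) (a c j (q c (k + j))))| ≤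
            (K : ℝ) ^ (1 / 2 + δ) / 2 := by
  classical
  obtain ⟨κ, hκ, hκ1, HH⟩ := lawWinF (δ / 4) s ((s + 3) * B * s) (by positivity) (by
    have : 1 ≤ (s + 3) * B := by nlinarith
    nlinarith)
  refine ⟨κ, 2 / (δ / 4), hκ, by positivity, fun v τ θ hv1 hτ hθ hv Γ _ q hq a D hD hper hb => ?_⟩
  obtain ⟨E, hE1, hE2⟩ := HH v τ θ hv1 hτ hθ hv Γ ℕ (fun _ _ => range s)
    (fun _ x hx => by
      rw [card_range, Real.rpow_natCast]
      have h1 : s < 2 ^ s := Nat.lt_two_pow_self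
      have h2 : s ≤ x ^ s := h1.le.trans (Nat.pow_le_pow_left hx s)
      exact_mod_cast h2) ℕ
    (fun _ x r => idx s x r) (fun c _ k => qq s (q c) k)
    (by
      intro c x r _ k hk
      rw [mem_idx] at hk
      exact qq_le s B hs (q c) (hq c).2 x k hk.1 hk.2.1)
    (by
      intro c x r _ k hk k' hk' hne
      rw [mem_idx] at hk hk'
      exact qq_coprime s hs (q c) (hq c).1 (fun k => ((hq c).2 k).1) k k' (by rw [hk.2.2, hk'.2.2]) hne)
    (fun c x r k n => cp (D c) (q c) (a c) k n) (fun _ x _ => 1 + x)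
    (by
      intro c x r _ k hk m m' h
      unfold cp
      congr 2
      apply prod_congr rfl
      intro j _
      apply hper
      refine h.of_dvd ?_
      have h1 : q c (k + j) ∣ qq s (q c) k := Finset.dvd_prod_of_mem (fun j : Fin s => q c (k + j)) (mem_univ j)
      exact_mod_cast h1)
    (by
      intro c x r _ k _ m
      exact cp_abs (D c) (hD c) (q c) (fun k => ((hq c).2 k).1) (a c) k (hb c) m)
    (by
      intro c x r _ k _
      have h1 : avg (qq s (q c) k) (fun n => cp (D c) (q c) (a c) k n) =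
          (avg (qq s (q c) k) (fun n => ∏ j : Fin s, a c j (q c (k + j)) n) - ∏ j : Fin s, avg (q c (k + j)) (a c j (q c (k + j)))) / (2 * D c ^ s) :=
        avg_lin _ (prod_pos fun j _ => ((hq c).2 _).1.pos) _ _ _
      rw [h1, avg_prod s (q c) (hq c).1 (fun k => ((hq c).2 k).1) k (fun j => a c j (q c (k + j))) (fun j => hper c j (k + j)), sub_self, zero_div])
    (by
      intro c x r _
      have hx0 : (0 : ℝ) ≤ x := Nat.cast_nonneg _
      refine ⟨by linarith, ?_⟩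
      have h1 : ∀ k ∈ idx s x r, avg (qq s (q c) k) (fun m => cp (D c) (q c) (a c) k m ^ 2) ≤ 1 := by
        intro k _
        refine (le_abs_self _).trans (avg_le _ (prod_pos fun j _ => ((hq c).2 _).1.pos) _ 1 fun n => ?_)
        rw [abs_of_nonneg (sq_nonneg _)]
        have h2 := cp_abs (D c) (hD c) (q c) (fun k => ((hq c).2 k).1) (a c) k (hb c) n
        exact (sq_le_one_iff_abs_le_one _).2 h2
      calc ∑ k ∈ idx s x r, avg (qq s (q c) k) (fun m => cp (D c) (q c) (a c) k m ^ 2) ≤ ∑ _k ∈ idx s x r, (1 : ℝ) := sum_le_sum h1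
        _ = (idx s x r).card := by rw [sum_const, nsmul_eq_mul, mul_one]
        _ ≤ x := by
            have h2 : idx s x r ⊆ range x := fun k hk => mem_range.2 (mem_idx.1 hk).2.1
            have h3 := card_le_card h2
            rw [card_range] at h3
            exact_mod_cast h3
        _ ≤ 1 + x := by linarith)
  refine ⟨E, hE1, fun α hα hαE c => ?_⟩
  obtain ⟨i₁, hi₁⟩ := hE2 α hα hαE c
  obtain ⟨x₀, hx₀⟩ := absorb3 δ (2 * D c ^ s * s) hδ (by have := hD c; positivity)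
  obtain ⟨i₂, hi₂⟩ := log_large hv1 hτ hθ hv α hα (max x₀ 3) (2 / (δ / 4)) (by positivity)
  refine ⟨max i₁ i₂, fun i hi n hn K hK1 hK2 => ?_⟩
  have hlarge := hi₂ i (le_trans (le_max_right _ _) hi) n hn
  have hxx : x₀ ≤ K := ((le_max_left _ _).trans hlarge).trans hK1
  have hK3 : (3 : ℝ) ≤ K := ((le_max_right _ _).trans hlarge).trans hK1
  have hK2' : 2 ≤ K := by
    have : (2 : ℝ) ≤ K := by linarith
    exact_mod_cast this
  have hmain := hi₁ i (le_trans (le_max_left _ _) hi) n hn K hK1 hK2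
  have hD0 : 0 < 2 * D c ^ s := by have := hD c; positivity
  have h1 : ∑ k ∈ range K, (∏ j : Fin s, a c j (q c (k + j)) n - ∏ j : Fin s, avg (q c (k + j)) (a c j (q c (k + j)))) =
      2 * D c ^ s * ∑ r ∈ range s, ∑ k ∈ idx s K r, cp (D c) (q c) (a c) k n := by
    rw [← sum_split s K hs hK2', mul_sum]
    apply sum_congr rfl
    intro k _
    unfold cp
    rw [mul_div_cancel₀ _ hD0.ne']
  rw [h1, abs_mul, abs_of_pos hD0]
  have h2 : |∑ r ∈ range s, ∑ k ∈ idx s K r, cp (D c) (q c) (a c) k n| ≤ s * (√(1 + K) * (K : ℝ) ^ (δ / 4)) := by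
    calc |∑ r ∈ range s, ∑ k ∈ idx s K r, cp (D c) (q c) (a c) k n| ≤ ∑ r ∈ range s, |∑ k ∈ idx s K r, cp (D c) (q c) (a c) k n| :=
          abs_sum_le_sum_abs _ _
      _ ≤ ∑ _r ∈ range s, √(1 + K) * (K : ℝ) ^ (δ / 4) := sum_le_sum fun r hr => hmain r hr
      _ = s * (√(1 + K) * (K : ℝ) ^ (δ / 4)) := by rw [sum_const, card_range, nsmul_eq_mul]
  calc 2 * D c ^ s * |∑ r ∈ range s, ∑ k ∈ idx s K r, cp (D c) (q c) (a c) k n| ≤ 2 * D c ^ s * (s * (√(1 + K) * (K : ℝ) ^ (δ / 4))) := by gcongr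
    _ = 2 * D c ^ s * s * (√(1 + K) * (K : ℝ) ^ (δ / 4)) := by ring
    _ ≤ _ := hx₀ K hxx

end Pool.Agent.X35.OR
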