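import Pool.Agent.X35.OR.ConsecD

/-! Products at consecutive terms of a sequence of primes, with known mean values. -/

set_option autoImplicit false

namespace Pool.Agent.X35.OR
open Finset Pool.Agent.X35.GV

lemma prod_diff_le {s : ℕ} (x y : Fin s → ℝ) (D e : ℝ) (hD : 1 ≤ D) (he : 0 ≤ e) (hx : ∀ j, |x j| ≤ D) (hy : ∀ j, |y j| ≤ D)
    (h : ∀ j, |x j - y j| ≤ e) : |∏ j, x j - ∏ j, y j| ≤ s * D ^ s * e := by
  induction s with
  | zero => simp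
  | succ s ih =>
    rw [Fin.prod_univ_succ, Fin.prod_univ_succ]
    have h1 := ih (fun j => x j.succ) (fun j => y j.succ) (fun j => hx _) (fun j => hy _) (fun j => h _)
    have h2 : |∏ j : Fin s, y j.succ| ≤ D ^ s := by
      rw [abs_prod]
      calc ∏ j : Fin s, |y j.succ| ≤ ∏ _j : Fin s, D := prod_le_prod (fun j _ => abs_nonneg _) fun j _ => hy _
        _ = D ^ s := by rw [prod_const, card_univ, Fintype.card_fin]
    have e1 : x 0 * ∏ j : Fin s, x j.succ - y 0 * ∏ j : Fin s, y j.succ =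
        x 0 * (∏ j : Fin s, x j.succ - ∏ j : Fin s, y j.succ) + (x 0 - y 0) * ∏ j : Fin s, y j.succ := by ring
    rw [e1]
    refine (abs_add_le _ _).trans ?_
    rw [abs_mul, abs_mul]
    have h3 : |x 0| * |∏ j : Fin s, x j.succ - ∏ j : Fin s, y j.succ| ≤ D * (s * D ^ s * e) :=
      mul_le_mul (hx 0) h1 (abs_nonneg _) (by linarith)
    have h4 : |x 0 - y 0| * |∏ j : Fin s, y j.succ| ≤ e * D ^ s := mul_le_mul (h 0) h2 (abs_nonneg _) he
    have h5 : D ^ s ≤ D ^ (s + 1) := pow_le_pow_right₀ hD (by omega)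
    have h6 : e * D ^ s ≤ e * D ^ (s + 1) := mul_le_mul_of_nonneg_left h5 he
    have h7 : D * (s * D ^ s * e) = s * D ^ (s + 1) * e := by ring
    push_cast
    nlinarith

lemma seq_ge (q : ℕ → ℕ) (hq : StrictMono q) (h0 : 0 < q 0) (t : ℕ) : t + 1 ≤ q t := by
  induction t with
  | zero => omega
  | succ t ih =>
    have := hq (Nat.lt_succ_self t)
    show t + 1 + 1 ≤ q (t + 1)
    have h12 : q t < q (t + 1) := this
    omega

lemma sum_inv_sqrt (K : ℕ) : ∑ k ∈ range K, 1 / √((k : ℝ) + 1) ≤ 2 * √K := by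
  induction K with
  | zero => simp
  | succ K ih =>
    rw [sum_range_succ]
    have h1 : 1 / √((K : ℝ) + 1) ≤ 2 * √((K : ℝ) + 1) - 2 * √K := by
      have h2 : 0 < √((K : ℝ) + 1) := Real.sqrt_pos.2 (by positivity)
      rw [div_le_iff₀ h2]
      have h3 : √((K : ℝ) + 1) * √((K : ℝ) + 1) = K + 1 := Real.mul_self_sqrt (by positivity)
      have h4 : √(K : ℝ) * √(K : ℝ) = K := Real.mul_self_sqrt (by positivity)
      have h5 : 0 ≤ (√((K : ℝ) + 1) - √K) ^ 2 := sq_nonneg _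
      nlinarith
    push_cast
    linarith

lemma absorb5 (δ T : ℝ) (hδ : 0 < δ) : ∃ x₀ : ℝ, ∀ x : ℝ, x₀ ≤ x → T * √x ≤ x ^ (1 / 2 + δ) / 2 := by
  have h2 : Filter.Tendsto (fun x : ℝ => x ^ δ) Filter.atTop Filter.atTop := tendsto_rpow_atTop hδ
  have h3 := h2.eventually_ge_atTop (2 * T)
  obtain ⟨x₀, hx₀⟩ := Filter.eventually_atTop.1 (h3.and (Filter.eventually_ge_atTop (1 : ℝ)))
  refine ⟨x₀, fun x hx => ?_⟩
  obtain ⟨h5, h6⟩ := hx₀ x hx
  have hx0 : 0 < x := by linarith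
  rw [Real.rpow_add hx0, ← Real.sqrt_eq_rpow]
  have h7 : 0 ≤ √x := Real.sqrt_nonneg _
  nlinarith

/-- **products with known mean values** -/
theorem consec_app (s B : ℕ) (hs : 1 ≤ s) (hB : 1 ≤ B) (δ : ℝ) (hδ : 0 < δ) : ∃ κ C : ℝ, 0 < κ ∧ 0 < C ∧
    ∀ (v : ℕ → ℝ) (τ θ : ℝ), (∀ i, 1 ≤ v i) → 0 ≤ τ → θ < 1 → (∀ t : ℝ, τ < t → Summable (fun i => v i ^ (-t))) →
    ∀ (Γ : Type) [Countable Γ] (q : Γ → ℕ → ℕ), (∀ c, StrictMono (q c) ∧ ∀ k, (q c k).Prime ∧ q c k ≤ (k + 2) ^ B) →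
    ∀ (a : Γ → Fin s → ℕ → ℤ → ℝ) (L : Γ → Fin s → ℕ → ℝ) (D M : Γ → ℝ), (∀ c, 1 ≤ D c) → (∀ c, 0 ≤ M c) →
    (∀ c j k, ∀ m m' : ℤ, m ≡ m' [ZMOD (q c k : ℕ)] → a c j (q c k) m = a c j (q c k) m') →
    (∀ c j k n, |a c j (q c k) n| ≤ D c) → (∀ c j k, |L c j (q c k)| ≤ D c) →
    (∀ c j k, |avg (q c k) (a c j (q c k)) - L c j (q c k)| ≤ M c / √(q c k)) →
    ∃ E : Set ℝ, dimH E ≤ ENNReal.ofReal ((1 - κ + τ) / (1 - θ)) ∧ ∀ α : ℝ, 0 < α → α ∉ E → ∀ c : Γ, ∃ i₀ : ℕ,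
      ∀ i : ℕ, i₀ ≤ i → ∀ n : ℤ, |(|(n : ℝ)|) - α * v i| ≤ v i ^ θ →
        ∀ K : ℕ, Real.log |(n : ℝ)| ^ C ≤ K → (K : ℝ) ≤ |(n : ℝ)| ^ κ →
          |∑ k ∈ range K, ∏ j : Fin s, a c j (q c (k + j)) n - ∑ k ∈ range K, ∏ j : Fin s, L c j (q c (k + j))| ≤
            (K : ℝ) ^ (1 / 2 + δ) := by
  classical
  obtain ⟨κ, C, hκ, hC, HH⟩ := consec s B hs hB δ hδ
  refine ⟨κ, C, hκ, hC, fun v τ θ hv1 hτ hθ hv Γ _ q hq a L D M hD hM hper hb hL hav => ?_⟩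
  obtain ⟨E, hE1, hE2⟩ := HH v τ θ hv1 hτ hθ hv Γ q hq a D hD hper hb
  refine ⟨E, hE1, fun α hα hαE c => ?_⟩
  obtain ⟨i₁, hi₁⟩ := hE2 α hα hαE c
  obtain ⟨x₀, hx₀⟩ := absorb5 δ (2 * (s * D c ^ s * M c)) hδ
  obtain ⟨i₂, hi₂⟩ := log_large hv1 hτ hθ hv α hα (max x₀ 3) C hC
  refine ⟨max i₁ i₂, fun i hi n hn K hK1 hK2 => ?_⟩
  have hlarge := hi₂ i (le_trans (le_max_right _ _) hi) n hn
  have hxx : x₀ ≤ K := ((le_max_left _ _).trans hlarge).trans hK1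
  have hmain := hi₁ i (le_trans (le_max_left _ _) hi) n hn K hK1 hK2
  rw [sum_sub_distrib] at hmain
  have hD0 : 0 ≤ D c := by linarith [hD c]
  have h2 : |∑ k ∈ range K, ∏ j : Fin s, avg (q c (k + j)) (a c j (q c (k + j))) - ∑ k ∈ range K, ∏ j : Fin s, L c j (q c (k + j))| ≤
      2 * (s * D c ^ s * M c) * √K := by
    rw [← sum_sub_distrib]
    refine (abs_sum_le_sum_abs _ _).trans ?_
    have h3 : ∀ k ∈ range K, |∏ j : Fin s, avg (q c (k + j)) (a c j (q c (k + j))) - ∏ j : Fin s, L c j (q c (k + j))| ≤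
        s * D c ^ s * M c * (1 / √((k : ℝ) + 1)) := by
      intro k _
      have hk1 : (0 : ℝ) < √((k : ℝ) + 1) := Real.sqrt_pos.2 (by positivity)
      refine (prod_diff_le _ _ (D c) (M c * (1 / √((k : ℝ) + 1))) (hD c) (mul_nonneg (hM c) (by positivity)) (fun j => ?_) (fun j => hL c j _)
        (fun j => (hav c j (k + j)).trans ?_)).trans (le_of_eq (by ring))
      · unfold avg
        have hp := ((hq c).2 (k + j)).1.pos
        have hp0 : (0 : ℝ) < q c (k + j) := by exact_mod_cast hp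
        rw [abs_div, abs_of_pos hp0, div_le_iff₀ hp0]
        refine (abs_sum_le_sum_abs _ _).trans ?_
        calc ∑ m ∈ range (q c (k + j)), |a c j (q c (k + j)) (m : ℤ)| ≤ ∑ _m ∈ range (q c (k + j)), D c := sum_le_sum fun m _ => hb c j _ _
          _ = D c * q c (k + j) := by rw [sum_const, card_range, nsmul_eq_mul, mul_comm]
      · have h4 := seq_ge (q c) (hq c).1 ((hq c).2 0).1.pos (k + j)
        have h5 : (k : ℝ) + 1 ≤ q c (k + j) := by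
          have : k + 1 ≤ q c (k + j) := by omega
          exact_mod_cast this
        have h6 : √((k : ℝ) + 1) ≤ √(q c (k + j)) := Real.sqrt_le_sqrt h5
        rw [mul_one_div]
        exact div_le_div_of_nonneg_left (hM c) hk1 h6
    refine (sum_le_sum h3).trans ?_
    rw [← mul_sum]
    have h4 := sum_inv_sqrt K
    have h5 : 0 ≤ (s : ℝ) * D c ^ s * M c := by have := hM c; positivity
    nlinarith
  have h3 := hx₀ K hxx
  have e1 : ∑ k ∈ range K, ∏ j : Fin s, a c j (q c (k + j)) n - ∑ k ∈ range K, ∏ j : Fin s, L c j (q c (k + j)) =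
      (∑ k ∈ range K, ∏ j : Fin s, a c j (q c (k + j)) n - ∑ k ∈ range K, ∏ j : Fin s, avg (q c (k + j)) (a c j (q c (k + j)))) +
      (∑ k ∈ range K, ∏ j : Fin s, avg (q c (k + j)) (a c j (q c (k + j))) - ∑ k ∈ range K, ∏ j : Fin s, L c j (q c (k + j))) := by ring
  rw [e1]
  refine (abs_add_le _ _).trans ?_
  linarith

end Pool.Agent.X35.OR
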