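import Pool.Agent.X35.OR.ConsecA
import Pool.Agent.X35.GV.Hyper

/-! Patterns of quadratic characters of the values of several polynomials. -/

set_option autoImplicit false

namespace Pool.Agent.X35.OR
open Finset Polynomial Pool.Agent.X35.GV

section field
variable {E : Type} [Field E] [Fintype E] [DecidableEq E]

/-- the mean value of a product of signs -/
lemma patt_field (hE : ringChar E ≠ 2) {r : ℕ} (g : Fin r → E[X]) (hsep : (∏ i, g i).Separable) (hdeg : ∀ i, 1 ≤ (g i).natDegree)
    (e : Fin r → ℤ) (he : ∀ i, e i = 1 ∨ e i = -1) :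
    |(((univ : Finset E).filter (fun t => ∀ i, quadraticChar E ((g i).eval t) = e i)).card : ℝ) - (Fintype.card E : ℝ) / 2 ^ r| ≤
      2 * (∏ i, g i).natDegree * √(Fintype.card E) := by
  classical
  set P := ∏ i, g i with hP
  have hP0 : P ≠ 0 := hsep.ne_zero
  have hg0 : ∀ i, g i ≠ 0 := by
    intro i h
    have := hdeg i
    rw [h] at this
    simp at this
  set q : ℝ := (Fintype.card E : ℝ) with hq
  have hq1 : 1 ≤ √q := by
    rw [Real.one_le_sqrt, hq]
    exact_mod_cast Fintype.card_pos
  -- the product over a subset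
  have hS : ∀ S ∈ (univ : Finset (Fin r)).powerset, S ≠ ∅ → |∑ t : E, ∏ i ∈ S, ((e i : ℝ) * (quadraticChar E ((g i).eval t) : ℝ))| ≤
      P.natDegree * √q := by
    intro S _ hne
    obtain ⟨i₀, hi₀⟩ := nonempty_iff_ne_empty.2 hne
    have hdvd : ∏ i ∈ S, g i ∣ P := prod_dvd_prod_of_subset _ _ _ (subset_univ S)
    have hsep' : (∏ i ∈ S, g i).Separable := hsep.of_dvd hdvd
    have hd1 : 1 ≤ (∏ i ∈ S, g i).natDegree := by
      refine (hdeg i₀).trans (natDegree_le_of_dvd (dvd_prod_of_mem _ hi₀) hsep'.ne_zero)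
    have hd2 : (∏ i ∈ S, g i).natDegree ≤ P.natDegree := natDegree_le_of_dvd hdvd hP0
    have h1 := Pool.Agent.H341R2.Sharp.weil_sharp hE (∏ i ∈ S, g i) hd1 (not_sq _ hsep' hd1)
    have h2 : ∑ t : E, ∏ i ∈ S, ((e i : ℝ) * (quadraticChar E ((g i).eval t) : ℝ)) =
        (∏ i ∈ S, (e i : ℝ)) * ∑ t : E, (quadraticChar E ((∏ i ∈ S, g i).eval t) : ℝ) := by
      rw [mul_sum]
      apply sum_congr rfl
      intro t _
      rw [prod_mul_distrib, eval_prod, map_prod]
      push_cast
      rfl
    have h3 : |∏ i ∈ S, (e i : ℝ)| = 1 := by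
      rw [abs_prod]
      apply prod_eq_one
      intro i _
      rcases he i with h | h <;> rw [h] <;> norm_num
    rw [h2, abs_mul, h3, one_mul]
    refine h1.trans (mul_le_mul_of_nonneg_right ?_ (Real.sqrt_nonneg _))
    have : ((∏ i ∈ S, g i).natDegree : ℝ) ≤ P.natDegree := by exact_mod_cast hd2
    linarith
  set φ : E → ℝ := fun t => ∏ i, ((e i : ℝ) * (quadraticChar E ((g i).eval t) : ℝ) + 1) / 2 with hφ
  have hsum : |∑ t : E, φ t - q / 2 ^ r| ≤ P.natDegree * √q := by
    have h1 : ∑ t : E, φ t = (∑ S ∈ (univ : Finset (Fin r)).powerset, ∑ t : E, ∏ i ∈ S, ((e i : ℝ) * (quadraticChar E ((g i).eval t) : ℝ))) / 2 ^ r := by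
      rw [sum_comm, sum_div]
      apply sum_congr rfl
      intro t _
      rw [hφ]
      simp only
      rw [prod_div_distrib, prod_const, card_univ, Fintype.card_fin, prod_add_one]
    have h2 : ∅ ∈ (univ : Finset (Fin r)).powerset := empty_mem_powerset _
    rw [← add_sum_erase _ _ h2] at h1
    simp only [prod_empty, sum_const, card_univ, nsmul_eq_mul, mul_one] at h1
    have h3 : ∑ t : E, φ t - q / 2 ^ r = (∑ S ∈ (univ : Finset (Fin r)).powerset.erase ∅, ∑ t : E, ∏ i ∈ S, ((e i : ℝ) * (quadraticChar E ((g i).eval t) : ℝ))) / 2 ^ r := by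
      rw [h1]
      ring
    have h20 : (0 : ℝ) < 2 ^ r := by positivity
    rw [h3, abs_div, abs_of_pos h20, div_le_iff₀ h20]
    refine (abs_sum_le_sum_abs _ _).trans ?_
    have h4 : ∑ S ∈ (univ : Finset (Fin r)).powerset.erase ∅, |∑ t : E, ∏ i ∈ S, ((e i : ℝ) * (quadraticChar E ((g i).eval t) : ℝ))| ≤
        ∑ _S ∈ (univ : Finset (Fin r)).powerset.erase ∅, (P.natDegree : ℝ) * √q :=
      sum_le_sum fun S hS' => hS S (mem_of_mem_erase hS') (ne_of_mem_erase hS')
    refine h4.trans ?_
    rw [sum_const, nsmul_eq_mul, mul_comm]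
    apply mul_le_mul_of_nonneg_left _ (by positivity)
    have h5 : ((univ : Finset (Fin r)).powerset.erase ∅).card ≤ 2 ^ r := by
      refine (card_erase_le).trans ?_
      rw [card_powerset, card_univ, Fintype.card_fin]
    exact_mod_cast h5
  have hdiff : |(((univ : Finset E).filter (fun t => ∀ i, quadraticChar E ((g i).eval t) = e i)).card : ℝ) - ∑ t : E, φ t| ≤ P.natDegree := by
    rw [card_filter]
    push_cast
    rw [← sum_sub_distrib]
    have h1 : ∀ t : E, |(if ∀ i, quadraticChar E ((g i).eval t) = e i then (1 : ℝ) else 0) - φ t| ≤ if t ∈ P.roots.toFinset then 1 else 0 := by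
      intro t
      have hroot : t ∈ P.roots.toFinset ↔ ∃ i, (g i).eval t = 0 := by
        rw [Multiset.mem_toFinset, mem_roots hP0, IsRoot.def, hP, eval_prod, prod_eq_zero_iff]
        simp
      have hfac : ∀ i, 0 ≤ ((e i : ℝ) * (quadraticChar E ((g i).eval t) : ℝ) + 1) / 2 ∧ ((e i : ℝ) * (quadraticChar E ((g i).eval t) : ℝ) + 1) / 2 ≤ 1 := by
        intro i
        have h2 : quadraticChar E ((g i).eval t) = 0 ∨ quadraticChar E ((g i).eval t) = 1 ∨ quadraticChar E ((g i).eval t) = -1 := by
          by_cases h0 : (g i).eval t = 0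
          · left
            rw [h0]
            simp
          · right
            exact quadraticChar_dichotomy h0
        rcases he i with h | h <;> rcases h2 with h3 | h3 | h3 <;> rw [h, h3] <;> norm_num
      by_cases hr : t ∈ P.roots.toFinset
      · rw [if_pos hr]
        have h2 : 0 ≤ φ t := prod_nonneg fun i _ => (hfac i).1
        have h3 : φ t ≤ 1 := prod_le_one (fun i _ => (hfac i).1) fun i _ => (hfac i).2
        split_ifs
        · rw [abs_le]; constructor <;> linarith
        · rw [abs_le]; constructor <;> linarith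
      · rw [if_neg hr]
        rw [hroot] at hr
        push Not at hr
        apply le_of_eq
        rw [abs_eq_zero, sub_eq_zero]
        split_ifs with hc
        · rw [hφ]
          simp only
          symm
          apply prod_eq_one
          intro i _
          rw [hc i]
          rcases he i with h | h <;> rw [h] <;> norm_num
        · push Not at hc
          obtain ⟨i, hi⟩ := hc
          rw [hφ]
          simp only
          symm
          apply prod_eq_zero (mem_univ i)
          rcases quadraticChar_dichotomy (hr i) with h3 | h3 <;> rcases he i with h | h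
          · exact absurd (h3.trans h.symm) hi
          · rw [h3, h]; norm_num
          · rw [h3, h]; norm_num
          · exact absurd (h3.trans h.symm) hi
    refine (abs_sum_le_sum_abs _ _).trans ((sum_le_sum fun t _ => h1 t).trans ?_)
    rw [← sum_filter, sum_const, nsmul_eq_mul, mul_one]
    have h2 : ((univ : Finset E).filter (fun t => t ∈ P.roots.toFinset)).card ≤ P.natDegree := by
      have h3 : (univ : Finset E).filter (fun t => t ∈ P.roots.toFinset) = P.roots.toFinset := by
        ext t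
        simp
      rw [h3]
      exact (Multiset.toFinset_card_le _).trans (card_roots' P)
    exact_mod_cast h2
  have h1 := abs_add_le ((((univ : Finset E).filter (fun t => ∀ i, quadraticChar E ((g i).eval t) = e i)).card : ℝ) - ∑ t : E, φ t)
    (∑ t : E, φ t - q / 2 ^ r)
  rw [sub_add_sub_cancel] at h1
  have h2 : (P.natDegree : ℝ) ≤ P.natDegree * √q := by
    have : (0 : ℝ) ≤ P.natDegree := Nat.cast_nonneg _
    nlinarith
  linarith

end field

/-- Bezout with denominators -/
lemma bezout_int (P D : ℤ[X]) (h : IsCoprime (P.map (Int.castRingHom ℚ)) (D.map (Int.castRingHom ℚ))) :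
    ∃ (U V : ℤ[X]) (R : ℤ), R ≠ 0 ∧ U * P + V * D = C R := by
  obtain ⟨u, v, huv⟩ := h
  obtain ⟨b, hb, hbu⟩ := IsLocalization.integerNormalization_spec (nonZeroDivisors ℤ) u
  obtain ⟨c, hc, hcv⟩ := IsLocalization.integerNormalization_spec (nonZeroDivisors ℤ) v
  set U := IsLocalization.integerNormalization (nonZeroDivisors ℤ) u
  set V := IsLocalization.integerNormalization (nonZeroDivisors ℤ) v
  have hb0 : b ≠ 0 := nonZeroDivisors.ne_zero hb
  have hc0 : c ≠ 0 := nonZeroDivisors.ne_zero hc
  refine ⟨C c * U, C b * V, b * c, mul_ne_zero hb0 hc0, ?_⟩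
  apply Polynomial.map_injective (Int.castRingHom ℚ) Int.cast_injective
  have e1 : U.map (Int.castRingHom ℚ) = C (b : ℚ) * u := by
    have : U.map (Int.castRingHom ℚ) = b • u := hbu
    rw [this, zsmul_eq_mul]
    simp
  have e2 : V.map (Int.castRingHom ℚ) = C (c : ℚ) * v := by
    have : V.map (Int.castRingHom ℚ) = c • v := hcv
    rw [this, zsmul_eq_mul]
    simp
  rw [Polynomial.map_add, Polynomial.map_mul, Polynomial.map_mul, Polynomial.map_mul,
    Polynomial.map_mul, Polynomial.map_C, Polynomial.map_C, Polynomial.map_C, e1, e2, eq_intCast,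
    eq_intCast, eq_intCast]
  have : C (c : ℚ) * (C (b : ℚ) * u) * P.map (Int.castRingHom ℚ) +
      C (b : ℚ) * (C (c : ℚ) * v) * D.map (Int.castRingHom ℚ) =
      C (b : ℚ) * C (c : ℚ) * (u * P.map (Int.castRingHom ℚ) + v * D.map (Int.castRingHom ℚ)) := by
    ring
  rw [this, huv, mul_one, ← C_mul]
  push_cast
  rfl

/-- reduction modulo the primes not dividing an integer keeps separability and the degrees -/
lemma sep_mod {r : ℕ} (f : Fin r → ℤ[X]) (hsep : ((∏ i, f i).map (Int.castRingHom ℚ)).Separable) :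
    ∃ m : ℤ, m ≠ 0 ∧ ∀ p : ℕ, p.Prime → ¬ (p : ℤ) ∣ m →
      (∏ i, (f i).map (Int.castRingHom (ZMod p))).Separable ∧ ∀ i, ((f i).map (Int.castRingHom (ZMod p))).natDegree = (f i).natDegree := by
  classical
  have hP0 : (∏ i, f i) ≠ 0 := by
    intro h
    rw [h, Polynomial.map_zero] at hsep
    exact not_separable_zero hsep
  have hs : IsCoprime ((∏ i, f i).map (Int.castRingHom ℚ)) ((derivative (∏ i, f i)).map (Int.castRingHom ℚ)) := by
    rw [← derivative_map]
    exact hsep
  obtain ⟨U, V, R, hR, hUV⟩ := bezout_int _ _ hs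
  refine ⟨R * (∏ i, f i).leadingCoeff, mul_ne_zero hR (leadingCoeff_ne_zero.2 hP0), fun p hp hpm => ?_⟩
  have : Fact p.Prime := ⟨hp⟩
  have hpR : ¬ (p : ℤ) ∣ R := fun h => hpm (Dvd.dvd.mul_right h _)
  have hpl : ∀ i, ¬ (p : ℤ) ∣ (f i).leadingCoeff := by
    intro i h
    apply hpm
    apply Dvd.dvd.mul_left
    rw [leadingCoeff_prod]
    exact h.trans (dvd_prod_of_mem _ (mem_univ i))
  constructor
  · rw [← Polynomial.map_prod]
    have h1 : (U.map (Int.castRingHom (ZMod p))) * ((∏ i, f i).map (Int.castRingHom (ZMod p))) +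
        (V.map (Int.castRingHom (ZMod p))) * derivative ((∏ i, f i).map (Int.castRingHom (ZMod p))) = C ((R : ZMod p)) := by
      rw [derivative_map, ← Polynomial.map_mul, ← Polynomial.map_mul, ← Polynomial.map_add, hUV, Polynomial.map_C]
      rfl
    have hR0 : (R : ZMod p) ≠ 0 := fun h => hpR ((ZMod.intCast_zmod_eq_zero_iff_dvd R p).1 h)
    refine ⟨C ((R : ZMod p)⁻¹) * U.map (Int.castRingHom (ZMod p)), C ((R : ZMod p)⁻¹) * V.map (Int.castRingHom (ZMod p)), ?_⟩
    rw [mul_assoc, mul_assoc, ← mul_add, h1, ← C_mul, inv_mul_cancel₀ hR0, C_1]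
  · intro i
    apply natDegree_map_of_leadingCoeff_ne_zero
    rw [eq_intCast]
    exact fun h => hpl i ((ZMod.intCast_zmod_eq_zero_iff_dvd _ p).1 h)

/-- the integer `m` is a nonzero square modulo `p` (`b = true`), or a nonsquare (`b = false`) -/
def Tp (p : ℕ) (b : Bool) (m : ℤ) : Prop :=
  if b = true then (m : ZMod p) ≠ 0 ∧ IsSquare (m : ZMod p) else ¬ IsSquare (m : ZMod p)

open Classical in
/-- **the proportion of the residues with a given pattern** -/
theorem patt {r : ℕ} (f : Fin r → ℤ[X]) (hsep : ((∏ i, f i).map (Int.castRingHom ℚ)).Separable) (hdeg : ∀ i, 1 ≤ (f i).natDegree) :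
    ∃ M : ℝ, 0 ≤ M ∧ ∀ p : ℕ, p.Prime → p ≠ 2 → ∀ b : Fin r → Bool,
      |(((range p).filter (fun t : ℕ => ∀ i, Tp p (b i) ((f i).eval (t : ℤ)))).card : ℝ) / p - 1 / 2 ^ r| ≤ M / √p := by
  obtain ⟨m, hm, H⟩ := sep_mod f hsep
  refine ⟨2 * (∑ i, (f i).natDegree : ℕ) + |(m : ℝ)|, by positivity, fun p hp hp2 b => ?_⟩
  have : Fact p.Prime := ⟨hp⟩
  have hp0 : (0 : ℝ) < p := by exact_mod_cast hp.pos
  have hsq : (0 : ℝ) < √p := Real.sqrt_pos.2 hp0
  have hsq2 : √(p : ℝ) * √p = p := Real.mul_self_sqrt hp0.le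
  have hp1 : 1 ≤ √(p : ℝ) := by
    rw [Real.one_le_sqrt]
    exact_mod_cast hp.one_lt.le
  by_cases hpm : (p : ℤ) ∣ m
  · -- trivial bound
    have h1 : (p : ℝ) ≤ |(m : ℝ)| := by
      have h2 := Int.le_of_dvd (abs_pos.2 hm) ((dvd_abs _ _).2 hpm)
      have h3 : ((p : ℤ) : ℝ) ≤ ((|m| : ℤ) : ℝ) := by exact_mod_cast h2
      rw [Int.cast_abs] at h3
      simpa using h3
    have h2 : (((range p).filter (fun t : ℕ => ∀ i, Tp p (b i) ((f i).eval (t : ℤ)))).card : ℝ) / p ≤ 1 := by
      rw [div_le_one hp0]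
      have := card_filter_le (range p) (fun t : ℕ => ∀ i, Tp p (b i) ((f i).eval (t : ℤ)))
      rw [card_range] at this
      exact_mod_cast this
    have h3 : (0 : ℝ) ≤ (((range p).filter (fun t : ℕ => ∀ i, Tp p (b i) ((f i).eval (t : ℤ)))).card : ℝ) / p := by positivity
    have h4 : (1 : ℝ) / 2 ^ r ≤ 1 := by
      rw [div_le_one (by positivity)]
      exact one_le_pow₀ (by norm_num)
    have h5 : (0 : ℝ) ≤ 1 / 2 ^ r := by positivity
    have h6 : (1 : ℝ) ≤ (2 * (∑ i, (f i).natDegree : ℕ) + |(m : ℝ)|) / √p := by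
      rw [one_le_div hsq]
      have h7 : √(p : ℝ) ≤ p := by nlinarith
      have h8 : (0 : ℝ) ≤ 2 * (∑ i, (f i).natDegree : ℕ) := by positivity
      linarith
    rw [abs_le]
    constructor <;> linarith
  · obtain ⟨hs, hd⟩ := H p hp hpm
    have hE : ringChar (ZMod p) ≠ 2 := by
      rw [ZMod.ringChar_zmod_n]
      exact hp2
    have h1 := patt_field hE (fun i => (f i).map (Int.castRingHom (ZMod p))) hs (fun i => by rw [hd i]; exact hdeg i)
      (fun i => if b i = true then 1 else -1) (fun i => by split_ifs <;> simp)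
    have h2 : (∏ i, (f i).map (Int.castRingHom (ZMod p))).natDegree ≤ ∑ i, (f i).natDegree := by
      refine (natDegree_prod_le _ _).trans ?_
      exact (sum_congr rfl fun i _ => hd i).le
    have h3 : ((univ : Finset (ZMod p)).filter (fun t => ∀ i, quadraticChar (ZMod p) (((f i).map (Int.castRingHom (ZMod p))).eval t) =
        if b i = true then 1 else -1)).card = ((range p).filter (fun t : ℕ => ∀ i, Tp p (b i) ((f i).eval (t : ℤ)))).card := by
      symm
      have hiff : ∀ t : ℕ, (∀ i, Tp p (b i) ((f i).eval (t : ℤ))) ↔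
          ∀ i, quadraticChar (ZMod p) (((f i).map (Int.castRingHom (ZMod p))).eval (t : ZMod p)) = if b i = true then 1 else -1 := by
        intro t
        apply forall_congr'
        intro i
        have e1 : ((f i).map (Int.castRingHom (ZMod p))).eval (t : ZMod p) = (((f i).eval (t : ℤ) : ℤ) : ZMod p) := by
          have h := Polynomial.eval_intCast_map (Int.castRingHom (ZMod p)) (f i) (t : ℤ)
          rw [Int.cast_natCast] at h
          exact h
        rw [e1]
        unfold Tp
        cases b i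
        · simp only [Bool.false_eq_true, if_false]
          exact (quadraticChar_neg_one_iff_not_isSquare).symm
        · simp only [if_true]
          constructor
          · rintro ⟨h, h'⟩
            exact (quadraticChar_one_iff_isSquare h).2 h'
          · intro h
            have h0 : (((f i).eval (t : ℤ) : ℤ) : ZMod p) ≠ 0 := by
              intro h0
              rw [h0] at h
              simp at h
            exact ⟨h0, (quadraticChar_one_iff_isSquare h0).1 h⟩
      refine card_bij (fun t _ => (t : ZMod p)) ?_ ?_ ?_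
      · intro t ht
        rw [mem_filter] at ht ⊢
        exact ⟨mem_univ _, (hiff t).1 ht.2⟩
      · intro a ha c hc hac
        rw [mem_filter, mem_range] at ha hc
        have := (ZMod.natCast_eq_natCast_iff' a c p).1 hac
        rwa [Nat.mod_eq_of_lt ha.1, Nat.mod_eq_of_lt hc.1] at this
      · intro x hx
        rw [mem_filter] at hx
        refine ⟨x.val, ?_, ZMod.natCast_zmod_val x⟩
        rw [mem_filter, mem_range]
        refine ⟨ZMod.val_lt x, (hiff _).2 ?_⟩
        rw [ZMod.natCast_zmod_val]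
        exact hx.2
    have h4 : (Fintype.card (ZMod p) : ℝ) = p := by rw [ZMod.card]
    rw [h4] at h1
    have h3' : (((range p).filter (fun t : ℕ => ∀ i, Tp p (b i) ((f i).eval (t : ℤ)))).card : ℝ) =
        (((univ : Finset (ZMod p)).filter (fun t => ∀ i, quadraticChar (ZMod p) (((f i).map (Int.castRingHom (ZMod p))).eval t) =
        if b i = true then 1 else -1)).card : ℝ) := by
      exact_mod_cast h3.symm
    have e2 : (((range p).filter (fun t : ℕ => ∀ i, Tp p (b i) ((f i).eval (t : ℤ)))).card : ℝ) / p - 1 / 2 ^ r =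
        ((((range p).filter (fun t : ℕ => ∀ i, Tp p (b i) ((f i).eval (t : ℤ)))).card : ℝ) - p / 2 ^ r) / p := by
      field_simp
    rw [e2, abs_div, abs_of_pos hp0, div_le_div_iff₀ hp0 hsq, h3']
    have h5 : ((∏ i, (f i).map (Int.castRingHom (ZMod p))).natDegree : ℝ) ≤ ((∑ i, (f i).natDegree : ℕ) : ℝ) := by exact_mod_cast h2
    have h6 : 2 * ((∏ i, (f i).map (Int.castRingHom (ZMod p))).natDegree : ℝ) * √p ≤ (2 * (∑ i, (f i).natDegree : ℕ) + |(m : ℝ)|) * √p := by
      apply mul_le_mul_of_nonneg_right _ hsq.le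
      have := abs_nonneg (m : ℝ)
      linarith
    have h7 : |(((univ : Finset (ZMod p)).filter (fun t => ∀ i, quadraticChar (ZMod p) (((f i).map (Int.castRingHom (ZMod p))).eval t) =
        if b i = true then 1 else -1)).card : ℝ) - (p : ℝ) / 2 ^ r| ≤ (2 * (∑ i, (f i).natDegree : ℕ) + |(m : ℝ)|) * √p := by
      refine le_trans (le_of_eq ?_) (h1.trans h6)
      congr!
    calc _ ≤ ((2 * (∑ i, (f i).natDegree : ℕ) + |(m : ℝ)|) * √p) * √p := mul_le_mul_of_nonneg_right h7 hsq.le
      _ = (2 * (∑ i, (f i).natDegree : ℕ) + |(m : ℝ)|) * p := by rw [mul_assoc, hsq2]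

end Pool.Agent.X35.OR
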